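import Pool.Agent.J4H13.LC.Jobs

/-!
# The classification of the double planes branched along a conic and lines
-/

set_option autoImplicit false

open MvPolynomial FF

namespace Pool.Agent.J4H13.LC

open Pool.Agent.J4H13.LA

lemma tri_of_point (hBEZ : S_BEZ) {C : P3} (hC : C.IsHomogeneous 2) {n : ℕ} {l : Fin n → V3}
    {W : Submodule ℂ V3} (hW : Module.finrank ℂ W = 2) (hCW : C ∈ IW W) (hall : ∀ i, l i ∈ W) :
    Tri C l := by
  classical
  obtain ⟨B, hB1, hB2, hB3⟩ := hBEZ.2.2 C 2 (by norm_num) hC {W}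
  obtain ⟨X, hX1, hX2, hX3⟩ := hBEZ.2.2 C 2 (by norm_num) hC {W, B}
  rw [Finset.mem_singleton] at hB1
  rw [Finset.mem_insert, Finset.mem_singleton, not_or] at hX1
  exact ⟨W, B, X, fun h => hB1 h.symm, fun h => hX1.1 h.symm, fun h => hX1.2 h.symm, hW, hB2, hX2,
    hCW, hB3, hX3, fun i => Or.inl (hall i)⟩

theorem classif (hBEZ : S_BEZ) (hDIM : S_DIM) (hCOUNT : S_COUNT) (hTWO : S_TWO)
    (hTHREE : S_THREE) : S_CLASS := by
  classical
  intro C hC hN k l hl0 hl
  rcases Nat.eq_zero_or_pos k with rfl | hk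
  · obtain ⟨W, -, hW2, hW3⟩ := hBEZ.2.2 C 2 (by norm_num) hC ∅
    exact Or.inr (Or.inl (tri_of_point hBEZ hC hW2 hW3 fun i => i.elim0))
  have hone : ∀ W : Submodule ℂ V3, Module.finrank ℂ W = 2 → (∀ i, l i ∈ W) →
      Adj C k l ∨ Tri C l ∨ ∃ W : Submodule ℂ V3, Module.finrank ℂ W = 2 ∧ C ∉ IW W ∧
        ∀ i, l i ∈ W := by
    intro W hW hall
    by_cases hCW : C ∈ IW W
    · exact Or.inr (Or.inl (tri_of_point hBEZ hC hW hCW hall))
    · exact Or.inr (Or.inr ⟨W, hW, hCW, hall⟩)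
  rcases Nat.lt_or_ge k 2 with hk2 | hk2
  · obtain rfl : k = 1 := by omega
    have h01 : LinearIndependent ℂ ![l 0, l 1] := hl 0 1 (by decide)
    refine hone (pt l 0 1) (finrank_pt h01) ?_
    intro i
    fin_cases i
    · exact mem_pt_left _ _
    · exact mem_pt_right _ _
  -- the points
  have hLS := isLS hl
  have hF : ∀ F : pts l, ∃ W : Submodule ℂ V3, F.1 = thr l W ∧ Module.finrank ℂ W = 2 ∧
      ∀ W' : Submodule ℂ V3, Module.finrank ℂ W' ≤ 2 → thr l W' = F.1 → W' = W := by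
    rintro ⟨F, hF⟩
    obtain ⟨i, j, hij, rfl⟩ := mem_pts.1 hF
    refine ⟨pt l i j, rfl, finrank_pt (hl i j hij), ?_⟩
    intro W' hW' hth
    have hi : i ∈ thr l W' := by
      rw [hth, mem_thr]
      exact mem_pt_left _ _
    have hj : j ∈ thr l W' := by
      rw [hth, mem_thr]
      exact mem_pt_right _ _
    rw [mem_thr] at hi hj
    exact eq_pt hW' (hl i j hij) hi hj
  choose W hFW hWf hWu using hF
  obtain ⟨Φc, hΦc⟩ : ∃ Φc : Finset (Finset (Fin (2 * k))), Φc = (pts l).filter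
      (fun F => ∃ W : Submodule ℂ V3, Module.finrank ℂ W = 2 ∧ C ∈ IW W ∧ F = thr l W) := ⟨_, rfl⟩
  have hcW : ∀ F : pts l, F.1 ∈ Φc ↔ C ∈ IW (W F) := by
    intro F
    rw [hΦc, Finset.mem_filter]
    constructor
    · rintro ⟨-, W', hW', hC', h⟩
      rw [← hWu F W' hW'.le h.symm]
      exact hC'
    · intro h
      exact ⟨F.2, W F, hWf F, h, hFW F⟩
  have hmu : ∀ F : pts l, mu C l (W F) = F.1.card + if F.1 ∈ Φc then 1 else 0 := by
    intro F
    unfold mu
    rw [← hFW F]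
    congr 1
    by_cases h : F.1 ∈ Φc
    · rw [if_pos h, if_pos ((hcW F).1 h)]
    · rw [if_neg h, if_neg (fun h' => h ((hcW F).2 h'))]
  have htwo : ∀ W : Submodule ℂ V3, Module.finrank ℂ W ≤ 2 → 2 ≤ (thr l W).card →
      thr l W ∈ pts l := by
    intro W hW h2
    obtain ⟨i, hi, j, hj, hij⟩ := Finset.one_lt_card.1 (by omega : 1 < (thr l W).card)
    rw [mem_thr] at hi hj
    have h3 := eq_pt hW (hl i j hij) hi hj
    exact mem_pts.2 ⟨i, j, hij, by rw [← h3]⟩
  rcases Nat.lt_or_ge (∑ F ∈ pts l, ((F.card + if F ∈ Φc then 1 else 0) / 2).choose 2)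
    (k.choose 2) with hlt | hge
  · -- there is a form
    left
    obtain ⟨Q, hQ0, hQ, hQm⟩ := hDIM (pts l) W (fun F => mu C l (W F) / 2 - 1) (k - 2) hWf (by
      have h1 : ∀ F : pts l, (mu C l (W F) / 2 - 1 + 1).choose 2 =
          ((F.1.card + if F.1 ∈ Φc then 1 else 0) / 2).choose 2 := by
        intro F
        rw [hmu]
        have := hLS.1 F.1 F.2
        congr 1
        omega
      rw [Finset.sum_congr rfl fun F _ => h1 F,
        Finset.sum_coe_sort (pts l) (fun F => ((F.card + if F ∈ Φc then 1 else 0) / 2).choose 2)]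
      have h2 : k - 2 + 2 = k := by omega
      rw [h2]
      exact hlt)
    refine ⟨hk2, Q, hQ0, hQ, ?_⟩
    intro W' hW'
    by_cases h4 : 4 ≤ mu C l W'
    · have h3 : 3 ≤ (thr l W').card := by
        unfold mu at h4
        split_ifs at h4 <;> omega
      have hmem := htwo W' hW' (by omega)
      have hWW : W' = W ⟨thr l W', hmem⟩ := hWu ⟨thr l W', hmem⟩ W' hW' rfl
      have h5 := hQm ⟨thr l W', hmem⟩
      rw [← hWW] at h5
      exact h5
    · have h5 : mu C l W' / 2 - 1 = 0 := by omega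
      rw [h5, pow_zero, Ideal.one_eq_top]
      trivial
  · -- the exceptional arrangements
    have hsub : Φc ⊆ pts l := by
      rw [hΦc]
      exact Finset.filter_subset _ _
    have hct : ∀ i, (Φc.filter (fun F => i ∈ F)).card ≤ 2 := by
      intro i
      have h1 : ∀ F ∈ Φc.filter (fun F => i ∈ F), ∃ W' : Submodule ℂ V3,
          Module.finrank ℂ W' = 2 ∧ C ∈ IW W' ∧ F = thr l W' := by
        intro F hF
        rw [Finset.mem_filter, hΦc, Finset.mem_filter] at hF
        exact hF.1.2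
      choose! g hg1 hg2 hg3 using h1
      have h2 : (Φc.filter (fun F => i ∈ F)).card =
          ((Φc.filter (fun F => i ∈ F)).image g).card := by
        rw [Finset.card_image_of_injOn]
        intro F hF F' hF' h
        rw [hg3 F hF, hg3 F' hF', h]
      rw [h2]
      refine hBEZ.1 C 2 hC (l i) (hl0 i) (hN.1 _ (hl0 i)) _ ?_
      intro W' hW'
      obtain ⟨F, hF, rfl⟩ := Finset.mem_image.1 hW'
      refine ⟨hg1 F hF, ?_, hg2 F hF⟩
      have h3 : i ∈ F := (Finset.mem_filter.1 hF).2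
      rw [hg3 F hF, mem_thr] at h3
      exact h3
    rcases hCOUNT (2 * k) (k + 1) (by omega) (by omega) (pts l) Φc hLS hsub hct (by
        rw [Nat.add_sub_cancel]
        exact hge) with h | h | h
    · obtain ⟨F, hF, hall⟩ := h
      refine hone (W ⟨F, hF⟩) (hWf _) fun i => ?_
      have h1 := hall i
      have h2 : F = thr l (W ⟨F, hF⟩) := hFW ⟨F, hF⟩
      rw [h2, mem_thr] at h1
      exact h1
    · obtain ⟨A, hA, E, hE, hAE, hAo, hEe, ⟨i, hiA, hiE⟩, hall⟩ := h
      have hA' := hsub hA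
      have e1 : A = thr l (W ⟨A, hA'⟩) := hFW ⟨A, hA'⟩
      have e2 : E = thr l (W ⟨E, hE⟩) := hFW ⟨E, hE⟩
      have hA3 : 3 ≤ A.card := by
        have h1 := hLS.1 A hA'
        obtain ⟨q, hq⟩ := hAo
        omega
      have h1 := hTWO hBEZ C hC k l hl (W ⟨A, hA'⟩) (W ⟨E, hE⟩) (hWf _) (hWf _) (by
          intro h
          exact hAE (by rw [e1, e2, h])) ((hcW ⟨A, hA'⟩).1 hA) (by rw [← e1]; exact hA3)
        (by rw [← e1]; exact hAo) (by rw [← e2]; exact hEe)
        ⟨i, (mem_thr l).1 (by rw [← e1]; exact hiA), (mem_thr l).1 (by rw [← e2]; exact hiE)⟩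
        (fun j => (hall j).imp (fun h => (mem_thr l).1 (by rw [← e1]; exact h))
          (fun h => (mem_thr l).1 (by rw [← e2]; exact h)))
      exact h1.imp id Or.inl
    · obtain ⟨A, hA, B, hB, E, hE, hEc, hAB, hAo, hBo, hEe, ⟨i, hiA, hiB, hiE⟩, hall⟩ := h
      have hA' := hsub hA
      have hB' := hsub hB
      have e1 : A = thr l (W ⟨A, hA'⟩) := hFW ⟨A, hA'⟩
      have e2 : B = thr l (W ⟨B, hB'⟩) := hFW ⟨B, hB'⟩
      have e3 : E = thr l (W ⟨E, hE⟩) := hFW ⟨E, hE⟩
      have hA3 : 3 ≤ A.card := by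
        have h1 := hLS.1 A hA'
        obtain ⟨q, hq⟩ := hAo
        omega
      have hB3 : 3 ≤ B.card := by
        have h1 := hLS.1 B hB'
        obtain ⟨q, hq⟩ := hBo
        omega
      have hE2 := hLS.1 E hE
      have hCE : C ∉ IW (W ⟨E, hE⟩) := fun h => hEc ((hcW ⟨E, hE⟩).2 h)
      have hCA := (hcW ⟨A, hA'⟩).1 hA
      have hCB := (hcW ⟨B, hB'⟩).1 hB
      have h1 := hTHREE hBEZ hDIM C hC hN k l hl (W ⟨A, hA'⟩) (W ⟨B, hB'⟩) (W ⟨E, hE⟩) (hWf _)
        (hWf _) (hWf _) (by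
          intro h
          exact hAB (by rw [e1, e2, h])) (by
          intro h
          exact hCE (by rw [← h]; exact hCA)) (by
          intro h
          exact hCE (by rw [← h]; exact hCB)) hCA hCB hCE (by rw [← e1]; exact hA3)
        (by rw [← e2]; exact hB3) (by rw [← e3]; exact hE2) (by rw [← e1]; exact hAo)
        (by rw [← e2]; exact hBo) (by rw [← e3]; exact hEe)
        ⟨i, (mem_thr l).1 (by rw [← e1]; exact hiA), (mem_thr l).1 (by rw [← e2]; exact hiB),
          (mem_thr l).1 (by rw [← e3]; exact hiE)⟩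
        (fun j => (hall j).imp (fun h => (mem_thr l).1 (by rw [← e1]; exact h))
          (Or.imp (fun h => (mem_thr l).1 (by rw [← e2]; exact h))
            (fun h => (mem_thr l).1 (by rw [← e3]; exact h))))
      exact h1.imp id Or.inl

end Pool.Agent.J4H13.LC
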