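import Pool.Agent.J4H13.LC.Jobs2

/-!
# The classification of the double planes branched along a cubic and lines
-/

set_option autoImplicit false

open MvPolynomial FF

namespace Pool.Agent.J4H13.LC

open Pool.Agent.J4H13.LA

theorem classif3 (hPT : S_PT) (hBEZ : S_BEZ) (hDIM : S_DIM) (hCOUNT : S_COUNT3) (hTWO : S_TWO3)
    (hTHREE : S_THREE3) (hQUAD : S_QUAD) : S_CLASS3 := by
  classical
  intro C hC hN k l hl0 hl
  rcases Nat.eq_zero_or_pos k with rfl | hk
  · obtain ⟨W, hW, hlW, hCW⟩ := hBEZ.2.1 C 3 (by norm_num) hC (l 0) (hl0 0)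
    refine Or.inr (Or.inl ⟨W, hW, hCW, fun i => ?_⟩)
    have hi : i = 0 := by
      apply Fin.ext
      have := i.2
      simp only [Fin.val_zero]
      omega
    rw [hi]
    exact hlW
  -- the points
  have hLS := isLS hl
  have hF : ∀ F : pts l, ∃ W : Submodule ℂ V3, F.1 = thr l W ∧ Module.finrank ℂ W = 2 ∧
      ∀ W' : Submodule ℂ V3, Module.finrank ℂ W' ≤ 2 → thr l W' = F.1 → W' = W := by
    rintro ⟨F, hF⟩
    obtain ⟨i, j, hij, rfl⟩ := mem_pts.1 hF
    refine ⟨pt l i j, rfl, finrank_pt (hl i j hij), ?_⟩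
    intro W' hW' hth
    have hi : i ∈ thr l W' := by
      rw [hth, mem_thr]
      exact mem_pt_left _ _
    have hj : j ∈ thr l W' := by
      rw [hth, mem_thr]
      exact mem_pt_right _ _
    rw [mem_thr] at hi hj
    exact eq_pt hW' (hl i j hij) hi hj
  choose W hFW hWf hWu using hF
  obtain ⟨Φc, hΦc⟩ : ∃ Φc : Finset (Finset (Fin (2 * k + 1))), Φc = (pts l).filter
      (fun F => ∃ W : Submodule ℂ V3, Module.finrank ℂ W = 2 ∧ C ∈ IW W ∧ F = thr l W) := ⟨_, rfl⟩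
  have hcW : ∀ F : pts l, F.1 ∈ Φc ↔ C ∈ IW (W F) := by
    intro F
    rw [hΦc, Finset.mem_filter]
    constructor
    · rintro ⟨-, W', hW', hC', h⟩
      rw [← hWu F W' hW'.le h.symm]
      exact hC'
    · intro h
      exact ⟨F.2, W F, hWf F, h, hFW F⟩
  have hmu : ∀ F : pts l, mu C l (W F) = F.1.card + if F.1 ∈ Φc then 1 else 0 := by
    intro F
    unfold mu
    rw [← hFW F]
    congr 1
    by_cases h : F.1 ∈ Φc
    · rw [if_pos h, if_pos ((hcW F).1 h)]
    · rw [if_neg h, if_neg (fun h' => h ((hcW F).2 h'))]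
  have htwo : ∀ W : Submodule ℂ V3, Module.finrank ℂ W ≤ 2 → 2 ≤ (thr l W).card →
      thr l W ∈ pts l := by
    intro W hW h2
    obtain ⟨i, hi, j, hj, hij⟩ := Finset.one_lt_card.1 (by omega : 1 < (thr l W).card)
    rw [mem_thr] at hi hj
    have h3 := eq_pt hW (hl i j hij) hi hj
    exact mem_pts.2 ⟨i, j, hij, by rw [← h3]⟩
  rcases Nat.lt_or_ge (∑ F ∈ pts l, ((F.card + if F ∈ Φc then 1 else 0) / 2).choose 2)
    ((k + 1).choose 2) with hlt | hge
  · -- there is a form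
    left
    obtain ⟨Q, hQ0, hQ, hQm⟩ := hDIM (pts l) W (fun F => mu C l (W F) / 2 - 1) (k - 1) hWf (by
      have h1 : ∀ F : pts l, (mu C l (W F) / 2 - 1 + 1).choose 2 =
          ((F.1.card + if F.1 ∈ Φc then 1 else 0) / 2).choose 2 := by
        intro F
        rw [hmu]
        have := hLS.1 F.1 F.2
        congr 1
        omega
      rw [Finset.sum_congr rfl fun F _ => h1 F,
        Finset.sum_coe_sort (pts l) (fun F => ((F.card + if F ∈ Φc then 1 else 0) / 2).choose 2)]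
      have h2 : k - 1 + 2 = k + 1 := by omega
      rw [h2]
      exact hlt)
    refine ⟨hk, Q, hQ0, hQ, ?_⟩
    intro W' hW'
    by_cases h4 : 4 ≤ mu C l W'
    · have h3 : 3 ≤ (thr l W').card := by
        unfold mu at h4
        split_ifs at h4 <;> omega
      have hmem := htwo W' hW' (by omega)
      have hWW : W' = W ⟨thr l W', hmem⟩ := hWu ⟨thr l W', hmem⟩ W' hW' rfl
      have h5 := hQm ⟨thr l W', hmem⟩
      rw [← hWW] at h5
      exact h5
    · have h5 : mu C l W' / 2 - 1 = 0 := by omega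
      rw [h5, pow_zero, Ideal.one_eq_top]
      trivial
  · -- the exceptional arrangements
    have hsub : Φc ⊆ pts l := by
      rw [hΦc]
      exact Finset.filter_subset _ _
    have hct : ∀ i, (Φc.filter (fun F => i ∈ F)).card ≤ 3 := by
      intro i
      have h1 : ∀ F ∈ Φc.filter (fun F => i ∈ F), ∃ W' : Submodule ℂ V3,
          Module.finrank ℂ W' = 2 ∧ C ∈ IW W' ∧ F = thr l W' := by
        intro F hF
        rw [Finset.mem_filter, hΦc, Finset.mem_filter] at hF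
        exact hF.1.2
      choose! g hg1 hg2 hg3 using h1
      have h2 : (Φc.filter (fun F => i ∈ F)).card =
          ((Φc.filter (fun F => i ∈ F)).image g).card := by
        rw [Finset.card_image_of_injOn]
        intro F hF F' hF' h
        rw [hg3 F hF, hg3 F' hF', h]
      rw [h2]
      refine hBEZ.1 C 3 hC (l i) (hl0 i) (hN.1 _ (hl0 i)) _ ?_
      intro W' hW'
      obtain ⟨F, hF, rfl⟩ := Finset.mem_image.1 hW'
      refine ⟨hg1 F hF, ?_, hg2 F hF⟩
      have h3 : i ∈ F := (Finset.mem_filter.1 hF).2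
      rw [hg3 F hF, mem_thr] at h3
      exact h3
    rcases hCOUNT (2 * k + 1) (k + 2) (by omega) (by omega) (pts l) Φc hLS hsub hct (by
        have h1 : k + 2 - 1 = k + 1 := by omega
        rw [h1]
        exact hge) with h | h | h
    · obtain ⟨F, hF, hall⟩ := h
      have hF' := hsub hF
      refine Or.inr (Or.inl ⟨W ⟨F, hF'⟩, hWf _, (hcW ⟨F, hF'⟩).1 hF, fun i => ?_⟩)
      have h1 := hall i
      have h2 : F = thr l (W ⟨F, hF'⟩) := hFW ⟨F, hF'⟩
      rw [h2, mem_thr] at h1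
      exact h1
    · obtain ⟨A, hA, B, hB, hAB, hAo, hBo, ⟨i, hiA, hiB⟩, hall⟩ := h
      have hA' := hsub hA
      have hB' := hsub hB
      have e1 : A = thr l (W ⟨A, hA'⟩) := hFW ⟨A, hA'⟩
      have e2 : B = thr l (W ⟨B, hB'⟩) := hFW ⟨B, hB'⟩
      have hA3 : 3 ≤ A.card := by
        have h1 := hLS.1 A hA'
        obtain ⟨q, hq⟩ := hAo
        omega
      have hB3 : 3 ≤ B.card := by
        have h1 := hLS.1 B hB'
        obtain ⟨q, hq⟩ := hBo
        omega
      exact Or.inl (hTWO C k l hl (W ⟨A, hA'⟩) (W ⟨B, hB'⟩) (hWf _) (hWf _) (by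
          intro h
          exact hAB (by rw [e1, e2, h])) ((hcW ⟨A, hA'⟩).1 hA) ((hcW ⟨B, hB'⟩).1 hB)
        (by rw [← e1]; exact hA3) (by rw [← e2]; exact hB3)
        (by rw [← e1]; exact hAo) (by rw [← e2]; exact hBo)
        ⟨i, (mem_thr l).1 (by rw [← e1]; exact hiA), (mem_thr l).1 (by rw [← e2]; exact hiB)⟩
        (fun j => (hall j).imp (fun h => (mem_thr l).1 (by rw [← e1]; exact h))
          (fun h => (mem_thr l).1 (by rw [← e2]; exact h))))
    · obtain ⟨A, hA, B, hB, E, hE, hAB, hAE, hBE, hAo, hBo, hEo, ⟨i, hiA, hiB, hiE⟩, hall⟩ := h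
      have hA' := hsub hA
      have hB' := hsub hB
      have hE' := hsub hE
      have e1 : A = thr l (W ⟨A, hA'⟩) := hFW ⟨A, hA'⟩
      have e2 : B = thr l (W ⟨B, hB'⟩) := hFW ⟨B, hB'⟩
      have e3 : E = thr l (W ⟨E, hE'⟩) := hFW ⟨E, hE'⟩
      have h3 : ∀ F : Finset (Fin (2 * k + 1)), F ∈ pts l → Odd F.card → 3 ≤ F.card := by
        intro F hF hFo
        have h1 := hLS.1 F hF
        obtain ⟨q, hq⟩ := hFo
        omega
      have hne1 : W ⟨A, hA'⟩ ≠ W ⟨B, hB'⟩ := by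
        intro h
        exact hAB (by rw [e1, e2, h])
      have hne2 : W ⟨A, hA'⟩ ≠ W ⟨E, hE'⟩ := by
        intro h
        exact hAE (by rw [e1, e3, h])
      have hne3 : W ⟨B, hB'⟩ ≠ W ⟨E, hE'⟩ := by
        intro h
        exact hBE (by rw [e2, e3, h])
      have hCA := (hcW ⟨A, hA'⟩).1 hA
      have hCB := (hcW ⟨B, hB'⟩).1 hB
      have hCE := (hcW ⟨E, hE'⟩).1 hE
      have hcom : ∃ i, l i ∈ W ⟨A, hA'⟩ ∧ l i ∈ W ⟨B, hB'⟩ ∧ l i ∈ W ⟨E, hE'⟩ :=
        ⟨i, (mem_thr l).1 (by rw [← e1]; exact hiA), (mem_thr l).1 (by rw [← e2]; exact hiB),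
          (mem_thr l).1 (by rw [← e3]; exact hiE)⟩
      have hall' : ∀ j, l j ∈ W ⟨A, hA'⟩ ∨ l j ∈ W ⟨B, hB'⟩ ∨ l j ∈ W ⟨E, hE'⟩ :=
        fun j => (hall j).imp (fun h => (mem_thr l).1 (by rw [← e1]; exact h))
          (Or.imp (fun h => (mem_thr l).1 (by rw [← e2]; exact h))
            (fun h => (mem_thr l).1 (by rw [← e3]; exact h)))
      rcases hTHREE hBEZ hDIM C hC hN k l hl (W ⟨A, hA'⟩) (W ⟨B, hB'⟩) (W ⟨E, hE'⟩) (hWf _)
        (hWf _) (hWf _) hne1 hne2 hne3 hCA hCB hCE (by rw [← e1]; exact h3 A hA' hAo)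
        (by rw [← e2]; exact h3 B hB' hBo) (by rw [← e3]; exact h3 E hE' hEo)
        (by rw [← e1]; exact hAo) (by rw [← e2]; exact hBo) (by rw [← e3]; exact hEo) hcom hall'
        with h | ⟨c1, c2, c3, hT⟩
      · exact Or.inl h
      · exact Or.inr (Or.inr (hQUAD hPT C hC k l hl (W ⟨A, hA'⟩) (W ⟨B, hB'⟩) (W ⟨E, hE'⟩) (hWf _)
          (hWf _) (hWf _) hne1 hne2 hne3 hCA hCB hCE c1 c2 c3 hcom hall' hT))

end Pool.Agent.J4H13.LC
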