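import Pool.Agent.J4H13.LC.Main3

/-!
# The characters of the covers of the plane branched along a cubic and lines
-/

set_option autoImplicit false

open MvPolynomial FF

namespace Pool.Agent.J4H13.LC

open Pool.Agent.J4H13.BC Pool.Agent.J4H13.LA Pool.Agent.J4H13.BD Pool.Agent.W602.GT
  Pool.Agent.W603.LV Pool.Agent.Helper397.HK

variable {K : Type} [Field K] [Algebra ℂ K]

lemma top_of_le {k₀ F : IntermediateField ℂ K} (h : k₀ ≤ F) [FiniteDimensional k₀ K]
    [IsGalois k₀ K] : FiniteDimensional F K ∧ IsGalois F K := by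
  have h1 : FiniteDimensional (IntermediateField.extendScalars h) K := inferInstance
  have h2 : IsGalois (IntermediateField.extendScalars h) K := inferInstance
  exact ⟨h1, h2⟩

lemma stab_mul {k₀ : IntermediateField ℂ K} {h v : K} (hh : h ∈ k₀) (hh0 : h ≠ 0)
    (σ : K ≃ₐ[k₀] K) : σ (h * v) = h * v ↔ σ v = v := by
  have h1 : σ h = h := σ.commutes ⟨h, hh⟩
  rw [map_mul, h1]
  constructor
  · intro h2
    exact mul_left_cancel₀ hh0 h2
  · intro h2
    rw [h2]

lemma good_smul {x y w g : K} (hg : ∀ L : IntermediateField ℂ K, x ∈ L → y ∈ L → g ∈ L)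
    (h : Good x y w) : Good x y (g * w) := by
  obtain ⟨L, hx, hy, hw, hL⟩ := h
  exact ⟨L, hx, hy, mul_mem (hg L hx hy) hw, hL⟩

lemma mem_of_adjoin {x y g : K} (hg : g ∈ IntermediateField.adjoin ℂ ({x, y} : Set K)) :
    ∀ L : IntermediateField ℂ K, x ∈ L → y ∈ L → g ∈ L := by
  intro L hx hy
  have h1 : IntermediateField.adjoin ℂ ({x, y} : Set K) ≤ L := by
    rw [IntermediateField.adjoin_le_iff]
    rintro z (rfl | hz)
    · exact hx
    · rw [Set.mem_singleton_iff] at hz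
      rw [hz]
      exact hy
  exact h1 hg

/-- Products of square roots of linear forms and powers of the cubic. -/
lemma good_or_enrq (hREG : S_REG) (hCLASS : S_CLASS3) (hTSEN : S_TSEN) (hRAT : S_RAT3)
    (hENRC : S_ENRC) {x y : K} (hxy : AlgebraicIndependent ℂ ![x, y]) {C : P3}
    (hC : C.IsHomogeneous 3) (hN : Nice C) {ι : Type} [DecidableEq ι] {l : ι → V3}
    (hl0 : ∀ i, l i ≠ 0) (T : Finset ι) (e : ℕ) {w : K} (hpg : NoTwo x y w) (hq : NoOne x y w)
    (hw : w ^ 2 = aeval (gp x y) C ^ e * ∏ i ∈ T, ev (gp x y) (l i)) :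
    Good x y w ∨ ∃ g ∈ IntermediateField.adjoin ℂ ({x, y} : Set K), g ≠ 0 ∧
      ∃ v, v ≠ 0 ∧ Enrq x y v ∧ w = g * v := by
  classical
  have hc0 : aeval (gp x y) C ≠ 0 := aeval_gp_ne_zero hxy hC (nice_ne_zero hN)
  have hcE : ∀ q : ℕ, aeval (gp x y) C ^ q ∈ IntermediateField.adjoin ℂ ({x, y} : Set K) :=
    fun q => pow_mem (aeval_mem x y C) q
  obtain ⟨q, hq' | hq'⟩ := Nat.even_or_odd' e
  · -- an even power
    left
    have hcq : aeval (gp x y) C ^ q ≠ 0 := pow_ne_zero _ hc0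
    have hwv : w = aeval (gp x y) C ^ q * (w / aeval (gp x y) C ^ q) := by
      rw [mul_div_cancel₀ _ hcq]
    have hpg' := hpg
    have hq'' := hq
    rw [hwv] at hpg' hq''
    have h1 := good_sqrt' hxy hl0 T (noTwo_mul (hcE q) hcq hpg')
      (noOne_mul (hcE q) hcq hq'') (by
        rw [div_pow, hw, hq', ← pow_mul, mul_comm q 2]
        field_simp)
    rw [hwv]
    exact good_smul (mem_of_adjoin (hcE q)) h1
  · have hcq : aeval (gp x y) C ^ q ≠ 0 := pow_ne_zero _ hc0
    obtain ⟨w', hw'⟩ : ∃ w', w' = w / aeval (gp x y) C ^ q := ⟨_, rfl⟩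
    have hwv : w = aeval (gp x y) C ^ q * w' := by
      rw [hw', mul_div_cancel₀ _ hcq]
    have hw2 : w' ^ 2 = aeval (gp x y) C * ∏ i ∈ T, ev (gp x y) (l i) := by
      rw [hw', div_pow, hw, hq', ← pow_mul, pow_succ, mul_comm q 2]
      field_simp
    -- an odd number of lines
    obtain ⟨ι', _, l₁, hl₁, T₁, N, hN', hT₁⟩ : ∃ (ι' : Type) (_ : DecidableEq ι') (l₁ : ι' → V3)
        (_ : ∀ i, l₁ i ≠ 0) (T₁ : Finset ι') (N : ℕ), T₁.card = 2 * N + 1 ∧
        ∏ i ∈ T₁, ev (gp x y) (l₁ i) = ∏ i ∈ T, ev (gp x y) (l i) := by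
      obtain ⟨N, hN | hN⟩ := Nat.even_or_odd' T.card
      · refine ⟨Option ι, inferInstance, fun i => i.elim (Pi.single 0 1) l, ?_,
          Finset.insertNone T, N, ?_, ?_⟩
        · intro i
          cases i with
          | none =>
            intro h
            have := congrFun h 0
            simp at this
          | some i => exact hl0 i
        · rw [Finset.card_insertNone, hN]
        · rw [Finset.prod_insertNone]
          change ev (gp x y) (Pi.single 0 1) * _ = _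
          rw [ev_single]
          change 1 * _ = _
          rw [one_mul]
          rfl
      · exact ⟨ι, inferInstance, l, hl0, T, N, hN, rfl⟩
    have hw'0 : w' ≠ 0 := by
      rintro rfl
      have h1 : aeval (gp x y) C * ∏ i ∈ T, ev (gp x y) (l i) = 0 := by
        rw [← hw2]
        ring
      obtain ⟨i, -, hi⟩ := Finset.prod_eq_zero_iff.1 ((mul_eq_zero.1 h1).resolve_left hc0)
      exact ev_gp_ne_zero hxy (hl0 i) hi
    obtain ⟨d, l', hl1, hl', g, v, hg, hwg, hv⟩ := reduceB hxy hl₁ (aeval (gp x y) C) N T₁ hN' w'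
      (by rw [hw2, hT₁])
    have hgE : g ∈ IntermediateField.adjoin ℂ ({x, y} : Set K) :=
      hg _ (IntermediateField.subset_adjoin _ _ (Or.inl rfl))
        (IntermediateField.subset_adjoin _ _ (Or.inr rfl))
    have hg0 : g ≠ 0 := by
      rintro rfl
      apply hw'0
      rw [hwg, zero_mul]
    have hv0 : v ≠ 0 := by
      rintro rfl
      apply hw'0
      rw [hwg, mul_zero]
    have hwgv : w = aeval (gp x y) C ^ q * g * v := by
      rw [hwv, hwg]
      ring
    have hcg : aeval (gp x y) C ^ q * g ∈ IntermediateField.adjoin ℂ ({x, y} : Set K) :=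
      mul_mem (hcE q) hgE
    have hcg0 : aeval (gp x y) C ^ q * g ≠ 0 := mul_ne_zero hcq hg0
    have hpg' := hpg
    rw [hwgv] at hpg'
    rcases good_cubic hREG hCLASS hTSEN hRAT hENRC hxy hC hN hl1 hl'
      (noTwo_mul hcg hcg0 hpg') hv0 hv with h | ⟨r, hr0, h⟩
    · left
      rw [hwgv]
      exact good_smul (mem_of_adjoin hcg) h
    · right
      have hrK : algebraMap ℂ K r ≠ 0 := (map_ne_zero _).2 hr0
      refine ⟨aeval (gp x y) C ^ q * g * (algebraMap ℂ K r)⁻¹,
        mul_mem hcg (inv_mem (IntermediateField.algebraMap_mem _ r)),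
        mul_ne_zero hcg0 (inv_ne_zero hrK), algebraMap ℂ K r * v, mul_ne_zero hrK hv0, h, ?_⟩
      rw [hwgv]
      field_simp

open scoped Classical in
/-- The constancy for the kernel of each character. -/
theorem con_sqrt (hREG : S_REG) (hCLASS : S_CLASS3) (hTSEN : S_TSEN) (hRAT : S_RAT3)
    (hENRC : S_ENRC) (hENR : S_ENR) (hMACH2 : S_MACH2) (hCONH : S_CONH) {x y : K}
    (hxy : AlgebraicIndependent ℂ ![x, y]) {C : P3}
    (hC : C.IsHomogeneous 3) (hN : Nice C) {ι : Type} [DecidableEq ι] {l : ι → V3}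
    (hl0 : ∀ i, l i ≠ 0) (T : Finset ι) (e : ℕ) {w : K} (hpg : NoTwo x y w) (hq : NoOne x y w)
    (hw : w ^ 2 = aeval (gp x y) C ^ e * ∏ i ∈ T, ev (gp x y) (l i)) {k₀ : IntermediateField ℂ K}
    (hk₀ : k₀ = IntermediateField.adjoin ℂ ({x, y} : Set K)) [Fintype (K ≃ₐ[k₀] K)]
    [FiniteDimensional k₀ K] [IsGalois k₀ K] {N : ℕ} (ξ : Fin (N + 1) → K) :
    Con (fun σ : K ≃ₐ[k₀] K => (σ.restrictScalars ℂ : K ≃ₐ[ℂ] K))
      (fun σ => if σ w = w then 1 else 0) ξ := by
  rcases good_or_enrq hREG hCLASS hTSEN hRAT hENRC hxy hC hN hl0 T e hpg hq hw with h | h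
  · obtain ⟨L, hx, hy, hwL, hL⟩ := h
    refine (hCONH K k₀ w inferInstance inferInstance N ξ).1 ⟨L, ?_, hwL, hL⟩
    intro z hz
    rw [hk₀] at hz
    exact mem_of_adjoin hz L hx hy
  · obtain ⟨g, hg, hg0, v, hv0, ⟨m, hm, a, b, e', μ, e1, e2, e3, hv⟩, hwg⟩ := h
    have hfun : (fun σ : K ≃ₐ[k₀] K => if σ w = w then (1 : ℚ) else 0) =
        fun σ => if σ v = v then 1 else 0 := by
      funext σ
      have h1 : σ w = w ↔ σ v = v := by
        rw [hwg]
        exact stab_mul (by rw [hk₀]; exact hg) hg0 σ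
      by_cases h2 : σ v = v
      · rw [if_pos h2, if_pos (h1.2 h2)]
      · rw [if_neg h2, if_neg (fun h3 => h2 (h1.1 h3))]
    rw [hfun]
    obtain ⟨F, hF⟩ : ∃ F : IntermediateField ℂ K, F = k₀ ⊔ IntermediateField.adjoin ℂ ({v} : Set K) :=
      ⟨_, rfl⟩
    have hkF : k₀ ≤ F := by
      rw [hF]
      exact le_sup_left
    obtain ⟨hfd, hgal⟩ := top_of_le hkF
    have hft : Fintype (K ≃ₐ[F] K) := Fintype.ofFinite _
    refine (hCONH K k₀ v inferInstance inferInstance N ξ).2 F hF ?_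
    obtain ⟨F₀, δ, ν, hδ, hν, hδ2, hν2, hadj, u0, u1, u2, u3⟩ :=
      hENR K x y hxy m hm a b e' μ e1 e2 e3 v hv0 hv
    refine hMACH2 K F F₀ δ ν ?_ hδ hν hδ2 hν2 u0 u1 u2 u3 hfd hgal N ξ
    rw [← hadj, hF, hk₀, ← IntermediateField.adjoin_union]
    congr 1
    ext z
    simp only [Set.mem_union, Set.mem_insert_iff, Set.mem_singleton_iff]
    tauto

end Pool.Agent.J4H13.LC
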