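import Pool.Agent.J4H13.LC.Jobs

/-!
# Forms with given multiplicities
-/

set_option autoImplicit false

open MvPolynomial

namespace Pool.Agent.J4H13.LC

open Pool.Agent.J4H13.LA

theorem t_DIM : S_DIM := by
  classical
  intro ι _ W m D hW hlt
  have hF : ∀ i : ι, ∃ (β γ : P3 →ₐ[ℂ] P3),
      (∀ P, β (γ P) = P) ∧ β (X 1) ∈ IW (W i) ∧ β (X 2) ∈ IW (W i) ∧
      ∀ (P : P3) (e : ℕ), P.IsHomogeneous e → (γ P).IsHomogeneous e := by
    intro i
    have hfin : Module.Free ℂ (W i) := inferInstance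
    let B := Module.finBasisOfFinrankEq ℂ (W i) (hW i)
    have hli : LinearIndependent ℂ ![(B 0 : V3), (B 1 : V3)] := by
      have h1 := B.linearIndependent.map' (W i).subtype (Submodule.ker_subtype _)
      have h2 : ![(B 0 : V3), (B 1 : V3)] = (W i).subtype ∘ B := by
        funext j
        fin_cases j <;> rfl
      rw [h2]
      exact h1
    exact exists_coord hli (B 0).2 (B 1).2
  choose β γ hβγ hβ1 hβ2 hγ using hF
  let Λ : (tri (D + 1) → ℂ) →ₗ[ℂ] ((i : ι) → tri (m i) → ℂ) :=
    LinearMap.pi fun i => condL D (γ i) (m i)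
  have hker : LinearMap.ker Λ ≠ ⊥ := by
    apply LinearMap.ker_ne_bot_of_finrank_lt
    rw [Module.finrank_pi_fintype, Module.finrank_fintype_fun_eq_card, Fintype.card_coe, card_tri]
    simp only [Module.finrank_fintype_fun_eq_card, Fintype.card_coe, card_tri]
    exact hlt
  obtain ⟨c, hc, hc0⟩ := (Submodule.ne_bot_iff _).1 hker
  refine ⟨form D c, ?_, form_homog _ _, ?_⟩
  · intro h
    apply hc0
    funext x
    rw [← coeff_form D c x, h, coeff_zero, Pi.zero_apply]
  · intro i
    refine mem_pow_of_coeff (hβγ i) (hβ1 i) (hβ2 i) (hγ i) (form_homog _ _) ?_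
    intro x hx
    have h5 : Λ c i = 0 := by
      rw [LinearMap.mem_ker.1 hc]
      rfl
    exact congrFun h5 ⟨x, hx⟩

end Pool.Agent.J4H13.LC
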