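import Pool.Agent.J4H13.LC.Jobs

/-!
# Arrangements with two points
-/

set_option autoImplicit false

open MvPolynomial

namespace Pool.Agent.J4H13.LC

open Pool.Agent.J4H13.LA

lemma pow_mem_IW {W : Submodule ℂ V3} {a b : V3} (ha : a ∈ W) (hb : b ∈ W) (n m : ℕ)
    (hm : m ≤ n + 1) : lin a * lin b ^ n ∈ IW W ^ m := by
  apply Ideal.pow_le_pow_right hm
  rw [pow_succ']
  exact Ideal.mul_mem_mul (lin_mem_IW ha) (Ideal.pow_mem_pow (lin_mem_IW hb) _)

theorem t_TWO : S_TWO := by
  classical
  intro hBEZ C hC k l hl A E hA hE hAE hCA h3 hodd heven hcom hall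
  obtain ⟨i, hiA, hiE⟩ := hcom
  have hcap : ∀ j, l j ∈ A → l j ∈ E → j = i := by
    intro j hjA hjE
    by_contra hji
    have h1 := eq_pt hA.le (hl j i hji) hjA hiA
    have h2 := eq_pt hE.le (hl j i hji) hjE hiE
    exact hAE (h1.trans h2.symm)
  have hl0 : ∀ j, l j ≠ 0 := by
    intro j
    obtain ⟨a, ha, b, hb, hab⟩ := Finset.one_lt_card.1 (by omega : 1 < (thr l A).card)
    by_cases hja : j = a
    · exact (hl j b (by rw [hja]; exact hab)).ne_zero 0
    · exact (hl j a hja).ne_zero 0
  have hcard : (thr l A).card + (thr l E).card = 2 * k + 1 := by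
    have h1 : thr l A ∩ thr l E = {i} := by
      ext j
      rw [Finset.mem_inter, Finset.mem_singleton, mem_thr, mem_thr]
      constructor
      · rintro ⟨h, h'⟩
        exact hcap j h h'
      · rintro rfl
        exact ⟨hiA, hiE⟩
    have h2 : thr l A ∪ thr l E = Finset.univ := by
      ext j
      rw [Finset.mem_union, mem_thr, mem_thr]
      exact ⟨fun _ => Finset.mem_univ j, fun _ => hall j⟩
    have h4 := Finset.card_union_add_card_inter (thr l A) (thr l E)
    rw [h1, h2, Finset.card_singleton, Finset.card_univ, Fintype.card_fin] at h4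
    omega
  obtain ⟨a, ha⟩ := hodd
  obtain ⟨b, hb⟩ := heven
  have hiE' : i ∈ thr l E := (mem_thr l).2 hiE
  have hiA' : i ∈ thr l A := (mem_thr l).2 hiA
  have hb1 : 1 ≤ b := by
    have h1 : 0 < (thr l E).card := Finset.card_pos.2 ⟨i, hiE'⟩
    omega
  obtain ⟨h, hhE, hhi⟩ : ∃ h ∈ thr l E, h ≠ i :=
    Finset.exists_mem_ne (by omega : 1 < (thr l E).card) i
  rw [mem_thr] at hhE
  rcases Nat.lt_or_ge b 2 with hb2 | hb2
  · -- one line off `A`
    right
    have hb' : b = 1 := by omega
    have hE2 : thr l E = {i, h} := by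
      symm
      apply Finset.eq_of_subset_of_card_le
      · intro j hj
        rw [Finset.mem_insert, Finset.mem_singleton] at hj
        rcases hj with rfl | rfl
        · exact hiE'
        · exact (mem_thr l).2 hhE
      · rw [Finset.card_pair (Ne.symm hhi), hb, hb']
    obtain ⟨X, hX, hhX, hCX⟩ := hBEZ.2.1 C 2 (by norm_num) hC (l h) (hl0 h)
    have hhA : l h ∉ A := fun h' => hhi (hcap h h' hhE)
    have hXA : A ≠ X := by
      rintro rfl
      exact hhA hhX
    obtain ⟨B, hB1, hB2, hB3⟩ := hBEZ.2.2 C 2 (by norm_num) hC {A, X}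
    rw [Finset.mem_insert, Finset.mem_singleton, not_or] at hB1
    refine ⟨A, X, B, hXA, fun h' => hB1.1 h'.symm, fun h' => hB1.2 h'.symm, hA, hX, hB2, hCA, hCX,
      hB3, fun j => ?_⟩
    rcases hall j with hj | hj
    · exact Or.inl hj
    · have h1 : j ∈ thr l E := (mem_thr l).2 hj
      rw [hE2, Finset.mem_insert, Finset.mem_singleton] at h1
      rcases h1 with rfl | rfl
      · exact Or.inl hiA
      · exact Or.inr (Or.inl hhX)
  · -- an adjoint form
    left
    obtain ⟨j, hjA, hji⟩ : ∃ j ∈ thr l A, j ≠ i :=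
      Finset.exists_mem_ne (by omega : 1 < (thr l A).card) i
    rw [mem_thr] at hjA
    refine ⟨by omega, lin (l i) * lin (l j) ^ (a - 1) * lin (l h) ^ (b - 2), ?_, ?_, ?_⟩
    · exact mul_ne_zero (mul_ne_zero (lin_ne_zero (hl0 i)) (pow_ne_zero _ (lin_ne_zero (hl0 j))))
        (pow_ne_zero _ (lin_ne_zero (hl0 h)))
    · have h1 := ((lin_homog (l i)).mul ((lin_homog (l j)).pow (a - 1))).mul
        ((lin_homog (l h)).pow (b - 2))
      have h2 : 1 + 1 * (a - 1) + 1 * (b - 2) = k - 2 := by omega
      rw [h2] at h1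
      exact h1
    · intro W hW
      by_cases h4 : 4 ≤ mu C l W
      · have h5 : 3 ≤ (thr l W).card := by
          unfold mu at h4
          split_ifs at h4 <;> omega
        have hWAE : W = A ∨ W = E := by
          -- two lines in one of the points
          have h6 : (thr l W ∩ thr l A).card + (thr l W ∩ thr l E).card ≥ 3 := by
            have h7 : thr l W ⊆ (thr l W ∩ thr l A) ∪ (thr l W ∩ thr l E) := by
              intro j hj
              rw [Finset.mem_union, Finset.mem_inter, Finset.mem_inter, mem_thr, mem_thr, mem_thr]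
              rw [mem_thr] at hj
              exact (hall j).imp (fun h => ⟨hj, h⟩) (fun h => ⟨hj, h⟩)
            have h8 := Finset.card_le_card h7
            have h9 := Finset.card_union_le (thr l W ∩ thr l A) (thr l W ∩ thr l E)
            omega
          rcases (by omega : 1 < (thr l W ∩ thr l A).card ∨ 1 < (thr l W ∩ thr l E).card) with
            h7 | h7
          · obtain ⟨p, hp, q, hq, hpq⟩ := Finset.one_lt_card.1 h7
            rw [Finset.mem_inter, mem_thr, mem_thr] at hp hq
            left
            rw [eq_pt hW (hl p q hpq) hp.1 hq.1, ← eq_pt hA.le (hl p q hpq) hp.2 hq.2]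
          · obtain ⟨p, hp, q, hq, hpq⟩ := Finset.one_lt_card.1 h7
            rw [Finset.mem_inter, mem_thr, mem_thr] at hp hq
            right
            rw [eq_pt hW (hl p q hpq) hp.1 hq.1, ← eq_pt hE.le (hl p q hpq) hp.2 hq.2]
        rcases hWAE with rfl | rfl
        · have hm : mu C l W / 2 - 1 ≤ a - 1 + 1 := by
            unfold mu
            rw [if_pos hCA]
            omega
          exact Ideal.mul_mem_right _ _ (pow_mem_IW hiA hjA _ _ hm)
        · have hm : mu C l W / 2 - 1 ≤ b - 2 + 1 := by
            unfold mu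
            split_ifs <;> omega
          have h6 := pow_mem_IW (W := W) hiE hhE (b - 2) _ hm
          have h7 : lin (l i) * lin (l j) ^ (a - 1) * lin (l h) ^ (b - 2) =
              lin (l j) ^ (a - 1) * (lin (l i) * lin (l h) ^ (b - 2)) := by ring
          rw [h7]
          exact Ideal.mul_mem_left _ _ h6
      · have h5 : mu C l W / 2 - 1 = 0 := by omega
        rw [h5, pow_zero, Ideal.one_eq_top]
        trivial

end Pool.Agent.J4H13.LC
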