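import Pool.Agent.J4H13.LC.Final
import Pool.Agent.J4H13.LC.Dim
import Pool.Agent.J4H13.LC.Two
import Pool.Agent.J4H56.LC.Three
import Pool.Agent.J4H63.LC.Count
import Pool.Agent.J4H63.LC.Reg
import Pool.Agent.J4H64.LC.Crem
import Pool.Agent.J4H89.LC.Pt
import Pool.Agent.J4H89.LC.Bez
import Pool.Agent.J4H89.LC.Nice
import Pool.Agent.J4H89.LC.Rat

/-!
# Zero-cycles on the covers of the plane branched along a conic and lines: the theorems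
-/

set_option autoImplicit false

open MvPolynomial FF

namespace Pool.Agent.J4H13.LC

open Pool.Agent.J4H13.BC Pool.Agent.J4H13.LA Pool.Agent.J4H13.BD Pool.Agent.W602.GT
  Pool.Agent.W603.LV Pool.Agent.Helper397.HK

variable {K : Type} [Field K] [Algebra ℂ K]

theorem t_CLASS : S_CLASS :=
  classif Pool.Agent.J4H89.LC.t_BEZ t_DIM Pool.Agent.J4H63.LC.t_COUNT t_TWO
    Pool.Agent.J4H56.LC.t_THREE

/-- the data of a cover branched along `C` and lines, as square roots indexed by `Option (Fin k)` and by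
`Fin (k + 1)` -/
lemma data_cons {x y : K} {C : P3} {k : ℕ} {w₀ : K} {w : Fin k → K}
    (hw₀ : ∃ (n : ℕ) (l : Fin n → V3), (∀ j, l j ≠ 0) ∧
      w₀ ^ 2 = aeval (gp x y) C * ∏ j, ev (gp x y) (l j))
    (hw : ∀ i, ∃ (n : ℕ) (l : Fin n → V3), (∀ j, l j ≠ 0) ∧
      w i ^ 2 = ∏ j, ev (gp x y) (l j)) :
    ∀ i, ∃ (e n : ℕ) (l : Fin n → V3), (∀ j, l j ≠ 0) ∧
      (Fin.cons w₀ w : Fin (k + 1) → K) i ^ 2 =
        aeval (gp x y) C ^ e * ∏ j, ev (gp x y) (l j) := by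
  intro i
  refine Fin.cases ?_ (fun i => ?_) i
  · obtain ⟨n, l, hl, h⟩ := hw₀
    refine ⟨1, n, l, hl, ?_⟩
    rw [Fin.cons_zero, h, pow_one]
  · obtain ⟨n, l, hl, h⟩ := hw i
    refine ⟨0, n, l, hl, ?_⟩
    rw [Fin.cons_succ, h, pow_zero, one_mul]

lemma gen_cons {x y : K} {k : ℕ} {w₀ : K} {w : Fin k → K}
    (hgen : IntermediateField.adjoin ℂ ({x, y, w₀} ∪ Set.range w) = ⊤) :
    IntermediateField.adjoin ℂ ({x, y} ∪ Set.range (Fin.cons w₀ w : Fin (k + 1) → K)) = ⊤ := by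
  rw [← hgen]
  congr 1
  rw [Fin.range_cons]
  ext z
  simp only [Set.mem_union, Set.mem_insert_iff, Set.mem_singleton_iff]
  tauto

/-- **Bloch's conjecture for the covers branched along a smooth conic and lines.** -/
theorem bloch_conic (hpg : PgZero K) (hq : QZero K) {x y : K}
    (hxy : AlgebraicIndependent ℂ ![x, y]) {C : P3} (hC : C.IsHomogeneous 2) (hCs : Smooth C)
    {k : ℕ} {w₀ : K} {w : Fin k → K}
    (hw₀ : ∃ (n : ℕ) (l : Fin n → V3), (∀ j, l j ≠ 0) ∧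
      w₀ ^ 2 = aeval (gp x y) C * ∏ j, ev (gp x y) (l j))
    (hw : ∀ i, ∃ (n : ℕ) (l : Fin n → V3), (∀ j, l j ≠ 0) ∧ w i ^ 2 = ∏ j, ev (gp x y) (l j))
    (hgen : IntermediateField.adjoin ℂ ({x, y, w₀} ∪ Set.range w) = ⊤)
    {N : ℕ} (ξ : Fin (N + 1) → K) (hξ : ξ ≠ 0) : ∀ a b : (locus ξ hξ).Pts ℂ, cls a = cls b := by
  obtain ⟨h1, h2, h3⟩ := good_prod Pool.Agent.J4H63.LC.t_REG t_CLASS Pool.Agent.J4H89.LC.t_BEZ
    Pool.Agent.J4H64.LC.t_CREM Pool.Agent.J4H89.LC.t_RAT hxy hC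
    (Pool.Agent.J4H89.LC.t_NICE C 2 le_rfl hC hCs) (data_cons hw₀ hw)
  exact bloch_abs hpg hq hxy h1 h2 h3 (gen_cons hgen) ξ hξ

/-- **Correspondences in the group ring.** -/
theorem corr_conic {x y : K} (hxy : AlgebraicIndependent ℂ ![x, y]) {C : P3}
    (hC : C.IsHomogeneous 2) (hCs : Smooth C) {k : ℕ} {w₀ : K} {w : Fin k → K}
    (hw₀ : ∃ (n : ℕ) (l : Fin n → V3), (∀ j, l j ≠ 0) ∧
      w₀ ^ 2 = aeval (gp x y) C * ∏ j, ev (gp x y) (l j))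
    (hw : ∀ i, ∃ (n : ℕ) (l : Fin n → V3), (∀ j, l j ≠ 0) ∧ w i ^ 2 = ∏ j, ev (gp x y) (l j))
    (hgen : IntermediateField.adjoin ℂ ({x, y, w₀} ∪ Set.range w) = ⊤)
    {n : ℕ} {c : Fin n → ℚ} {g : Fin n → K ≃ₐ[ℂ] K} (hg : ∀ j, g j x = x ∧ g j y = y)
    (h2 : KillsTwo c g) (h1 : KillsOne c g) {N : ℕ} {Y : ProjVar N} {ξ : Fin (N + 1) → K}
    (hξ : ξ ∈ Y.Pts K) :
    ∃ (B : Subalgebra ℂ K) (hB : ∀ j i, g j (ξ i) ∈ B), B.FG ∧
      ∀ (φ φ' : B →ₐ[ℂ] ℂ) (p p' : Fin n → Y.Pts ℂ),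
        (∀ j i, (p j).1 i = φ ⟨g j (ξ i), hB j i⟩) →
        (∀ j i, (p' j).1 i = φ' ⟨g j (ξ i), hB j i⟩) →
        ∑ j, c j • cls (p j) = ∑ j, c j • cls (p' j) := by
  obtain ⟨e1, e2, e3⟩ := good_prod Pool.Agent.J4H63.LC.t_REG t_CLASS Pool.Agent.J4H89.LC.t_BEZ
    Pool.Agent.J4H64.LC.t_CREM Pool.Agent.J4H89.LC.t_RAT hxy hC
    (Pool.Agent.J4H89.LC.t_NICE C 2 le_rfl hC hCs) (data_cons hw₀ hw)
  exact corr_abs hxy e1 e2 e3 (gen_cons hgen) hg h2 h1 hξ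

end Pool.Agent.J4H13.LC
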