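import Pool.Agent.J4H13.LC.Jobs

/-!
# Project LC, second stage: covers of the plane branched along lines and a smooth CUBIC

Same notation as in `LC/Jobs.lean`. Now `C` is a smooth cubic and the number of the lines is odd. The classification
(`S_CLASS3`): a double plane `v ^ 2 = c * l_1 ⋯ l_{2k+1}` has an adjoint form, or all lines pass through a point of `C`
(then it is rational, by Tsen), or `2k+1 = 7` and the lines are the sides and diagonals of a complete quadrilateral with the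
six vertices on `C`: an ENRIQUES surface. The Enriques surfaces are treated by a new machine: the function field `F` of
such a surface is biquadratic over a field `F₀` so that `F₀` and the three quadratic intermediate fields are unirational;
this gives the statement for `K ⊇ F` after passing to a Galois closure over `F₀` (`S_MACH2`).

Each `S_X : Prop` below is a job: prove `theorem t_X : S_X` in a file of your own folder.
-/

set_option autoImplicit false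

open MvPolynomial FF

namespace Pool.Agent.J4H13.LC

open Pool.Agent.J4H13.BC Pool.Agent.J4H13.LA Pool.Agent.J4H13.BD Pool.Agent.W602.GT
  Pool.Agent.W603.LV Pool.Agent.Helper397.HK

open scoped Classical in
/-- **JOB COUNT3.** (Pure combinatorics, compare `S_COUNT` in `LC/Jobs.lean`.) `n + 3 = 2 d`, at most three points of
`Φc` on each line. Conclusion: (A) one block of `Φc` contains all lines, (B) two odd blocks `A ≠ B` of `Φc` with a common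
line have union everything, (C) three different odd blocks of `Φc` with a common line have union everything.

Proof. `8 (m/2 choose 2) = r(r-1) - r` (`r` even), `r(r-1) - 3(r-1)` (`r` odd, off `Φc`), `r(r-1) + (r-1)` (`r` odd, on `Φc`), and
`8 (d-1 choose 2) = n(n-1) + (n-1)`. So the assumption says `∑_i val i ≤ -(n-1)` with `val i` = the sum over the blocks
through `i` of `1` (even), `3(r-1)/r ≥ 2` (odd off `Φc`), `-(r-1)/r > -1` (odd on `Φc`, at most three). The number of even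
blocks on `i` is even, because `∑_{F ∋ i} (r_F - 1) = n - 1` is even. If `i` has two even blocks: `val i ≥ 2 - 3 + (sum of
1/r) > -1 + 1/n` (if three blocks of `Φc`; else `≥ 0`). If `i` has no even block and an odd block off `Φc`: the same. If `i` has only
odd blocks on `Φc`: one of them: it contains all lines (A); two (B); three (C). If none of (A), (B), (C) holds, all
`val i > -1 + 1/n`, contradiction to the sum. (`n = 1`: `d = 2` is excluded.) -/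
def S_COUNT3 : Prop :=
  ∀ (n d : ℕ), 3 ≤ d → n + 3 = 2 * d → ∀ (Φ Φc : Finset (Finset (Fin n))), IsLS Φ → Φc ⊆ Φ →
    (∀ i, (Φc.filter (fun F => i ∈ F)).card ≤ 3) →
    (d - 1).choose 2 ≤ ∑ F ∈ Φ, ((F.card + if F ∈ Φc then 1 else 0) / 2).choose 2 →
    (∃ F ∈ Φc, ∀ i, i ∈ F) ∨
    (∃ A ∈ Φc, ∃ B ∈ Φc, A ≠ B ∧ Odd A.card ∧ Odd B.card ∧ (∃ i, i ∈ A ∧ i ∈ B) ∧
      ∀ j, j ∈ A ∨ j ∈ B) ∨
    (∃ A ∈ Φc, ∃ B ∈ Φc, ∃ E ∈ Φc, A ≠ B ∧ A ≠ E ∧ B ≠ E ∧ Odd A.card ∧ Odd B.card ∧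
      Odd E.card ∧ (∃ i, i ∈ A ∧ i ∈ B ∧ i ∈ E) ∧ ∀ j, j ∈ A ∨ j ∈ B ∨ j ∈ E)

/-- there is an adjoint form for `C * ∏ l i` (`2k+1` lines, `d = k + 2`, degree `d - 3`) -/
def Adj3 (C : P3) (k : ℕ) (l : Fin (2 * k + 1) → V3) : Prop :=
  1 ≤ k ∧ ∃ Q : P3, Q ≠ 0 ∧ Q.IsHomogeneous (k - 1) ∧
    ∀ W : Submodule ℂ V3, Module.finrank ℂ W ≤ 2 → Q ∈ IW W ^ (mu C l W / 2 - 1)

/-- **JOB TWO3.** (compare `t_TWO` in `LC/Two.lean`, copy it.) `A`, `B` on `C` with `2a - 1`, `2b - 1 ≥ 3` lines,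
`2a - 1 + 2b - 1 = 2k + 2`; `Q = lin (l i) * lin (l j) ^ (a-2) * lin (l h) ^ (b-2)`, of degree `a + b - 3 = k - 1`. -/
def S_TWO3 : Prop :=
  ∀ (C : P3) (k : ℕ) (l : Fin (2 * k + 1) → V3),
    (∀ i j, i ≠ j → LinearIndependent ℂ ![l i, l j]) →
    ∀ (A B : Submodule ℂ V3), Module.finrank ℂ A = 2 → Module.finrank ℂ B = 2 → A ≠ B →
    C ∈ IW A → C ∈ IW B → 3 ≤ (thr l A).card → 3 ≤ (thr l B).card → Odd (thr l A).card →
    Odd (thr l B).card → (∃ i, l i ∈ A ∧ l i ∈ B) → (∀ j, l j ∈ A ∨ l j ∈ B) → Adj3 C k l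

/-- **JOB THREE3.** (compare `S_THREE` in `LC/Jobs.lean`, project file `Three.lean` of helper56.) `A, B, E` on `C` with
`2a - 1, 2b - 1, 2c - 1 ≥ 3` lines on the common line `l i`; `2k + 1 = 2(a+b+c) - 5`, `k - 1 = a + b + c - 4`; `T` = the set of the
points on `C` other than `A, B, E` with exactly three lines (one through each of `A, B, E`, none of them `l i`).
`Q = lin (l i) * Q'`, `deg Q' = a+b+c-5` with multiplicity `a-2, b-2, c-2` at `A, B, E` and `1` at the points of `T`; it exists by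
`S_DIM` if `C(a-1,2) + C(b-1,2) + C(c-1,2) + t < C(a+b+c-3,2)`, i.e., with `α = a-2, β = b-2, γ = c-2`,
`t < αβ + αγ + βγ + 2(α+β+γ) + 3`. Each line through `A` other than `l i` contains besides `A` at most two points of `C`
(`S_BEZ`, at most three points): `t ≤ 4(α+1)`, similarly `4(β+1)`, `4(γ+1)`. So this holds unless `α = β = γ = 0` and `t ≥ 3`
(`α = β = 0, γ ≥ 1`: `2γ + 3 > 4`). -/
def S_THREE3 : Prop := S_BEZ → S_DIM →
  ∀ (C : P3), C.IsHomogeneous 3 → Nice C → ∀ (k : ℕ) (l : Fin (2 * k + 1) → V3),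
    (∀ i j, i ≠ j → LinearIndependent ℂ ![l i, l j]) →
    ∀ (A B E : Submodule ℂ V3), Module.finrank ℂ A = 2 → Module.finrank ℂ B = 2 →
    Module.finrank ℂ E = 2 → A ≠ B → A ≠ E → B ≠ E → C ∈ IW A → C ∈ IW B → C ∈ IW E →
    3 ≤ (thr l A).card → 3 ≤ (thr l B).card → 3 ≤ (thr l E).card →
    Odd (thr l A).card → Odd (thr l B).card → Odd (thr l E).card →
    (∃ i, l i ∈ A ∧ l i ∈ B ∧ l i ∈ E) → (∀ j, l j ∈ A ∨ l j ∈ B ∨ l j ∈ E) →
    Adj3 C k l ∨ ((thr l A).card = 3 ∧ (thr l B).card = 3 ∧ (thr l E).card = 3 ∧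
      ∃ T : Finset (Submodule ℂ V3), T.card = 3 ∧ ∀ W ∈ T, Module.finrank ℂ W = 2 ∧ C ∈ IW W ∧
        W ≠ A ∧ W ≠ B ∧ W ≠ E ∧ (thr l W).card = 3)

/-- the cubics through the six vertices of the complete quadrilateral `p, q, r, p + q + r` -/
def cub {R : Type} [CommRing R] [Algebra ℂ R] (a b e μ : ℂ) (p q r : R) : R :=
  algebraMap ℂ R a * (q * r * (q + r)) + algebraMap ℂ R b * (p * r * (p + r)) +
    algebraMap ℂ R e * (p * q * (p + q)) + algebraMap ℂ R μ * (p * q * r)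

/-- the product of the sides and the diagonals of the complete quadrilateral `p, q, r, p + q + r` -/
def sev {R : Type} [CommRing R] (p q r : R) : R :=
  p * q * r * (p + q + r) * (p + q) * (p + r) * (q + r)

/-- the Enriques configuration -/
def Enr {n : ℕ} (C : P3) (l : Fin n → V3) : Prop :=
  ∃ m : Fin 3 → V3, LinearIndependent ℂ m ∧ ∃ a b e μ c : ℂ, c ≠ 0 ∧
    C = cub a b e μ (lin (m 0)) (lin (m 1)) (lin (m 2)) ∧
    ∏ i, lin (l i) = MvPolynomial.C c * sev (lin (m 0)) (lin (m 1)) (lin (m 2))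

/-- **JOB QUAD.** The lines are `l i` (through `A, B, E`) and two further lines `a₁, a₂ ∋ A`, `b₁, b₂ ∋ B`, `e₁, e₂ ∋ E`
(`2k + 1 = 7`). A point `W ∈ T` has exactly three lines, at most one through each of `A, B, E` and not `l i` (`l i ∈ W` and
another line of `W`, which is in `A`, say, gives `W = A`), so it is a triple `(a_s, b_t, e_u)`; two different points of `T` have at
most one common line; so the three triples in `{1,2}³` have pairwise distance `≥ 2`, hence the same parity, and after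
renumbering they are `a₁b₁e₁`, `a₂b₂e₁`, `a₁b₂e₂` (call the points `P₁, P₂, P₃`). The four lines `l i, a₁, b₂, e₁` are in general
position (any three are independent) with the vertices `A, B, E, P₁, P₂, P₃`: `A = l i ∩ a₁`, `B = l i ∩ b₂`, `E = l i ∩ e₁`,
`P₁ = a₁ ∩ e₁`, `P₂ = b₂ ∩ e₁`, `P₃ = a₁ ∩ b₂`. Hence `l i = α a₁ + β b₂ + γ e₁` with `α, β, γ ≠ 0`; put `m 0 = α a₁`,
`m 1 = β b₂`, `m 2 = γ e₁`, `l i = m 0 + m 1 + m 2`. Then `a₂ ∈ A ∩ P₂ = span {m 1 + m 2}`, `b₁ ∈ B ∩ P₁ = span {m 0 + m 2}`,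
`e₂ ∈ E ∩ P₃ = span {m 0 + m 1}` (one-dimensional intersections). `C` is a cubic form in `lin (m j)` (they form a basis),
vanishing at the six vertices (`S_PT`: `C ∈ IW W ↔ C p = 0`), in the coordinates `m j`: `(1,0,0), (0,1,0), (0,0,1)` and
`(0,1,-1), (1,0,-1), (1,-1,0)`: no cubes, and the coefficients of `q²r` and `qr²` agree, etc.: `C = cub a b e μ`. -/
def S_QUAD : Prop := S_PT →
  ∀ (C : P3), C.IsHomogeneous 3 → ∀ (k : ℕ) (l : Fin (2 * k + 1) → V3),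
    (∀ i j, i ≠ j → LinearIndependent ℂ ![l i, l j]) →
    ∀ (A B E : Submodule ℂ V3), Module.finrank ℂ A = 2 → Module.finrank ℂ B = 2 →
    Module.finrank ℂ E = 2 → A ≠ B → A ≠ E → B ≠ E → C ∈ IW A → C ∈ IW B → C ∈ IW E →
    (thr l A).card = 3 → (thr l B).card = 3 → (thr l E).card = 3 →
    (∃ i, l i ∈ A ∧ l i ∈ B ∧ l i ∈ E) → (∀ j, l j ∈ A ∨ l j ∈ B ∨ l j ∈ E) →
    (∃ T : Finset (Submodule ℂ V3), T.card = 3 ∧ ∀ W ∈ T, Module.finrank ℂ W = 2 ∧ C ∈ IW W ∧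
        W ≠ A ∧ W ≠ B ∧ W ≠ E ∧ (thr l W).card = 3) → Enr C l

/-- **JOB TSEN.** From `Pool.Agent.H552R3.Tsen.exists_zero` (`Pool/Agent/H552R3/Tsen/C1.lean`; `J = Unit`, `ω = 1`, `n = 2`,
`I = Fin 3`, `L = adjoin ℂ {s}`: its elements are quotients of polynomials in `s`). -/
def S_TSEN : Prop :=
  ∀ (K : Type) [Field K] [Algebra ℂ K] (s : K), Transcendental ℂ s →
    ∀ α ∈ IntermediateField.adjoin ℂ ({s} : Set K), ∀ β ∈ IntermediateField.adjoin ℂ ({s} : Set K),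
    ∀ γ ∈ IntermediateField.adjoin ℂ ({s} : Set K),
    ∃ a ∈ IntermediateField.adjoin ℂ ({s} : Set K), ∃ b ∈ IntermediateField.adjoin ℂ ({s} : Set K),
    ∃ c ∈ IntermediateField.adjoin ℂ ({s} : Set K), (a ≠ 0 ∨ b ≠ 0 ∨ c ≠ 0) ∧
      a ^ 2 = α * b ^ 2 + β * (b * c) + γ * c ^ 2

/-- **JOB RAT3.** All lines pass through a point `W` of the cubic. Basis `m 0, m 1` of `W`, completed by `m 2`;
`s = M_1/M_0`, `u = M_2/M_0`; `c = M_0 ^ 3 (L(s) u ^ 2 + Q₂(s) u + Q₃(s))` (no `u ^ 3` as `C ∈ IW W`), degrees `≤ 1, 2, 3`;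
`v' = v / M_0 ^ (k + 2)`, `v' ^ 2 = f(s) (L u ^ 2 + Q₂ u + Q₃)` (`LA.prod_mem`). Let `R = adjoin ℂ {s}`. If `L = 0`: `Q₂ ≠ 0` (otherwise `C`
is a binary form, so divisible by a line), `u = (v' ^ 2 / f - Q₃)/Q₂ ∈ R(v')`. If `L ≠ 0`: the discriminant `Q₂ ^ 2 - 4 L Q₃` is not
`0` (otherwise `4 L C = (2 L m_2 + Q₂)^2` and the linear form `L` divides `C`). `S_TSEN` with `α = f L`, `β = f Q₂`, `γ = f Q₃`:
if `c ≠ 0`: `u₀ = b/c`, `v₀ = a/c`, `T = (v' - v₀)/(u - u₀)`, `(u - u₀)(T ^ 2 - f L) = f (2 L u₀ + Q₂) - 2 v₀ T`, so `u, v' ∈ R(T)` if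
`T ^ 2 ≠ f L`; if `T ^ 2 = f L`, `v' = T u + (v₀ - T u₀)` and comparing the coefficients (`u` is transcendental over `R`, hence over
its algebraic closure) gives `4 T ^ 2 f Q₃ = f ^ 2 Q₂ ^ 2`, discriminant `0`. If `c = 0`: `ρ = a/b`, `ρ ^ 2 = f L`, `T = v' - ρ u`,
`u (2 ρ T - f Q₂) = f Q₃ - T ^ 2`, and `2 ρ T = f Q₂` would give `T ∈ R`, `T ^ 2 = f Q₃`, discriminant `0`. Then
`LA.embed_of_two` for `adjoin {s, T}` and `LA.lin_mem`, as in `LA.good_one`. -/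
def S_RAT3 : Prop := S_TSEN →
  ∀ (K : Type) [Field K] [Algebra ℂ K] (x y : K), AlgebraicIndependent ℂ ![x, y] →
    ∀ (C : P3), C.IsHomogeneous 3 → Nice C → ∀ (k : ℕ) (l : Fin (2 * k + 1) → V3),
    (∀ i, l i ≠ 0) → ∀ W : Submodule ℂ V3, Module.finrank ℂ W = 2 → C ∈ IW W →
    (∀ i, l i ∈ W) → ∀ (v : K), v ≠ 0 →
    v ^ 2 = aeval (gp x y) C * ∏ i, ev (gp x y) (l i) → Good x y v

/-- unirational -/
def Emb {K : Type} [Field K] [Algebra ℂ K] (L : IntermediateField ℂ K) : Prop :=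
  ∃ m : ℕ, Nonempty (L →ₐ[ℂ] FractionRing (PR m))

/-- **JOB ENR.** The Enriques surface. Put `X = - q r / (p (p + q + r))`, `Y = p / q`. Then (all denominators are nonzero by
`LA.ev_gp_ne_zero`, `hm`) `r / q = - X Y (Y+1) / (1 + X Y)`, so `adjoin {X, Y} = adjoin {x, y} =: k` (`LA.lin_mem`: the
ratios generate), and with `v₂ = v (1 + X Y)^3 / (q^5 Y^2 (Y+1)^2)`:
`v₂ ^ 2 = - X (1 - X) (1 - X Y^2) G`, `G = g₂ Y^2 + g₁ Y + g₀`, `g₂ = X (κ X - b)`, `κ = a + b + e - μ`, `g₁ = (2 e - μ) X`,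
`g₀ = e - a X` (indeed `(p+q+r)/q = (Y+1)/(1+XY)`, `(p+r)/q = Y(1-X)/(1+XY)`, `(q+r)/q = (1-XY^2)/(1+XY)`,
`cub / q^3 = Y (Y+1) G / (1+XY)^2`; `field_simp; ring`). `G ≠ 0` as `v ≠ 0`. Put `θ = (1 - X Y^2)/G`, `ν = v₂ / G`:
`ν ^ 2 = - X (1 - X) θ`; `F₀ = adjoin {X, θ}`; `δ = 2 (X + θ g₂) Y + θ g₁`: since `(X + θ g₂) Y^2 + θ g₁ Y + (θ g₀ - 1) = 0`,
`δ ^ 2 = θ^2 g₁^2 - 4 (X + θ g₂)(θ g₀ - 1) = X * Qf`, `Qf = (2e-μ)^2 X θ^2 + 4 (1 + θ (κ X - b))(1 - θ (e - a X)) ∈ F₀`.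
(1) `X + θ g₂ ≠ 0`: else `(1 - X Y^2)(κ X - b) = - G`, and comparing coefficients in the algebraically independent `X, Y`:
`μ = 2e`, `b = e`, excluded. So `Y ∈ F₀(δ)`, `k = F₀ ⊔ adjoin {δ}`, `adjoin {x,y,v} = F₀ ⊔ adjoin {δ, ν}`.
(2) `X, θ` are algebraically independent (`Y` is algebraic over `F₀` and `X, Y` are independent); so `δ ≠ 0` (`Qf = 4 + θ(...)` is
a nonzero polynomial in `X, θ`), `ν ≠ 0`. (3) `Emb` of `F₀ ≤ k` and of `F₀ ⊔ adjoin {δ} ≤ k`: restrict `embed_of_two` of `k`.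
(4) `F₀ ⊔ adjoin {ν} = adjoin {X, ν}` (`θ = - ν^2/(X(1-X))`): `embed_of_two` with `x, y := X, θ`.
(5) `F₀ ⊔ adjoin {δ ν}`: put `U = 1/(1-X)`, `θ' = θ (1-X)`, `ω = δ ν / X`. `ω ^ 2 = - θ' Qf` and `Qf = a₂ U^2 + a₁ U + a₀` with
`a₂ = θ'^2 (μ - 2a)^2`, `a₁ = - (2e-μ)^2 θ'^2 + 4 θ' (κ-b)(1 - a θ') - 4 θ' (e-a)(1 - κ θ')`, `a₀ = 4 (1 - κ θ')(1 - a θ')`. In
`Ω = AlgebraicClosure K` take `τ ^ 2 = - θ'`, `ω' = ω/τ`, `s₀ = τ^2 (μ - 2a)` (so `s₀^2 = a₂`), `T = ω' - s₀ U`: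
`U (2 s₀ T - a₁) = a₀ - T^2`. If `2 s₀ T ≠ a₁`: `U, ω' ∈ ℂ(τ, T)`. If `2 s₀ T = a₁` and `s₀ ≠ 0`: `T, ω' ∈ ℂ(τ, U)`. The case
`s₀ = 0 = a₁` does not occur: `μ = 2a`, and then `a₁ = 4 θ'^2 (e-a)(b-a)`, excluded. So the field `F₀ ⊔ adjoin {δ ν}` maps to
`adjoin {τ, T}` or `adjoin {τ, U}` in `Ω`, to which `embed_of_two` applies (it contains `θ', U`, hence the algebraically
independent `X, θ`). -/
def S_ENR : Prop :=
  ∀ (K : Type) [Field K] [Algebra ℂ K] (x y : K), AlgebraicIndependent ℂ ![x, y] →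
    ∀ m : Fin 3 → V3, LinearIndependent ℂ m → ∀ a b e μ : ℂ,
    ¬ (μ = 2 * e ∧ b = e) → ¬ (μ = 2 * a ∧ e = a) → ¬ (μ = 2 * a ∧ b = a) →
    ∀ v : K, v ≠ 0 → v ^ 2 = cub a b e μ (ev (gp x y) (m 0)) (ev (gp x y) (m 1)) (ev (gp x y) (m 2)) *
      sev (ev (gp x y) (m 0)) (ev (gp x y) (m 1)) (ev (gp x y) (m 2)) →
    ∃ (F₀ : IntermediateField ℂ K) (δ ν : K), δ ≠ 0 ∧ ν ≠ 0 ∧ δ ^ 2 ∈ F₀ ∧ ν ^ 2 ∈ F₀ ∧
      IntermediateField.adjoin ℂ ({x, y, v} : Set K) = F₀ ⊔ IntermediateField.adjoin ℂ ({δ, ν} : Set K) ∧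
      Emb F₀ ∧ Emb (F₀ ⊔ IntermediateField.adjoin ℂ ({δ} : Set K)) ∧
      Emb (F₀ ⊔ IntermediateField.adjoin ℂ ({ν} : Set K)) ∧
      Emb (F₀ ⊔ IntermediateField.adjoin ℂ ({δ * ν} : Set K))

/-- **JOB ENRC.** The three exclusions in `S_ENR` hold if no linear form divides the cubic: `μ = 2e, b = e`:
`cub = (q + r)(a q r + e p (p + q + r))`; `μ = 2a, e = a`: `cub = (p + r)(a q (p+q+r) + b p r)`; `μ = 2a, b = a`:
`cub = (p + q)(a r (p+q+r) + e p q)` (`ring`). -/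
def S_ENRC : Prop :=
  ∀ m : Fin 3 → V3, LinearIndependent ℂ m → ∀ a b e μ : ℂ,
    Nice (cub a b e μ (lin (m 0)) (lin (m 1)) (lin (m 2))) →
    ¬ (μ = 2 * e ∧ b = e) ∧ ¬ (μ = 2 * a ∧ e = a) ∧ ¬ (μ = 2 * a ∧ b = a)

/-- The combination `∑ Γ σ * r σ` of automorphisms is constant on the zero-cycles given by `ξ`. -/
def Con {K : Type} [Field K] [Algebra ℂ K] {G : Type} [Fintype G] (r : G → K ≃ₐ[ℂ] K)
    (Γ : G → ℚ) {N : ℕ} (ξ : Fin (N + 1) → K) : Prop :=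
  ∃ (B : Subalgebra ℂ K) (hB : ∀ (σ : G) i, r σ (ξ i) ∈ B), B.FG ∧
    ∀ (Y : ProjVar N), Y.OnCone ξ → ∀ (φ φ' : B →ₐ[ℂ] ℂ) (p p' : G → Y.Pts ℂ),
      (∀ σ i, (p σ).1 i = φ ⟨r σ (ξ i), hB σ i⟩) → (∀ σ i, (p' σ).1 i = φ' ⟨r σ (ξ i), hB σ i⟩) →
      ∑ σ, Γ σ • cls (p σ) = ∑ σ, Γ σ • cls (p' σ)

/-- **JOB MACH2.** `K / F` finite Galois and `F = F₀(δ, ν)`. `K / F₀` is finite (`F / F₀` is generated by square roots). Let
`E` be the normal closure of `K` over `F₀` (`normalClosure F₀ K (AlgebraicClosure K)`, finite Galois over `F₀` in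
characteristic zero), `G = E ≃ₐ[F₀] E`. `BD.machine_corr` for `G`, `ξ` mapped to `E`, the subgroups `H₁, H₂, H₃, ⊤` = stabilizers of
`δ, ν, δν`, and everything, coefficients `1, 1, 1, -1`: `Γ σ = 2` if `σ δ = δ, σ ν = ν` and `0` otherwise (`σ δ = ± δ`, `σ ν = ± ν`).
The fixed rings are the images of `F₀(δ)`, `F₀(ν)`, `F₀(δν)`, `F₀` (Galois theory, see `huni'` in `BD/KummerCorr.lean`), which are
`Emb`. We get `B ⊆ E` with: `∑_{σ ∈ Gal(E/F)} cls (φ (σ ξ))` (times `2`) does not depend on the point `φ` of `B`. Since `K / F` is normal,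
each `σ ∈ Gal(E/F)` restricts to an element of `Gal(K/F)` (`AlgEquiv.restrictNormalHom`, surjective, fibres of the same size
`#Gal(E/K)`), so the sum is `#Gal(E/K) * ∑_{τ : K ≃ₐ[F] K} cls (φ (τ ξ))`. Descent to `K`: let `B' ⊆ K` be generated by all `τ (ξ i)` and the
coefficients of monic polynomials over `K` of the finitely many generators of `B` (they are algebraic over `K`): `B` and
`B'` generate a subalgebra `B''` of `E` which is integral over (the image of) `B'`, so each `ℂ`-point of `B'` extends to `B''` (lying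
over + Nullstellensatz; see how `BC/Ext.lean` or `BD/MachineCorr.lean` extend points), and restricts to a point of `B`. -/
def S_MACH2 : Prop :=
  ∀ (K : Type) [Field K] [Algebra ℂ K] (F F₀ : IntermediateField ℂ K) (δ ν : K),
    F = F₀ ⊔ IntermediateField.adjoin ℂ ({δ, ν} : Set K) → δ ≠ 0 → ν ≠ 0 → δ ^ 2 ∈ F₀ → ν ^ 2 ∈ F₀ →
    Emb F₀ → Emb (F₀ ⊔ IntermediateField.adjoin ℂ ({δ} : Set K)) →
    Emb (F₀ ⊔ IntermediateField.adjoin ℂ ({ν} : Set K)) →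
    Emb (F₀ ⊔ IntermediateField.adjoin ℂ ({δ * ν} : Set K)) →
    FiniteDimensional F K → IsGalois F K → ∀ [Fintype (K ≃ₐ[F] K)] (N : ℕ) (ξ : Fin (N + 1) → K),
    Con (fun σ : K ≃ₐ[F] K => (σ.restrictScalars ℂ : K ≃ₐ[ℂ] K)) (fun _ => 1) ξ

open scoped Classical in
/-- **JOB KCON.** The Kummer machine with `Con`: copy `BD.kummer_corr` (`BD/KummerCorr.lean`); in its last step
`machine_corr G Γ H' c` is replaced by the linearity of `Con` in `Γ` (`Γ = ∑_o c o * indicator (H' o)`; `B = ⨆ B_o`), the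
`none` term (`H' none = ⊤`, fixed field `k₀`) by `machine_corr` with the single subgroup `⊤` and `hk₀`, and the terms `some S` are
the assumption `hcon`. -/
def S_KCON : Prop :=
  ∀ (K : Type) [Field K] [Algebra ℂ K] (k₀ : IntermediateField ℂ K) (k : ℕ) (w : Fin k → K),
    (∀ i, w i ^ 2 ∈ k₀) → (∀ i, w i ≠ 0) → IntermediateField.adjoin k₀ (Set.range w) = ⊤ →
    Emb k₀ → ∀ [Fintype (K ≃ₐ[k₀] K)] (Γ : (K ≃ₐ[k₀] K) → ℚ) (N : ℕ) (ξ : Fin (N + 1) → K),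
    (∀ S : Finset (Fin k), ∑ σ, (Γ σ : K) * σ (∏ i ∈ S, w i) ≠ 0 →
      Con (fun σ : K ≃ₐ[k₀] K => (σ.restrictScalars ℂ : K ≃ₐ[ℂ] K))
        (fun σ => if σ (∏ i ∈ S, w i) = ∏ i ∈ S, w i then 1 else 0) ξ) →
    Con (fun σ : K ≃ₐ[k₀] K => (σ.restrictScalars ℂ : K ≃ₐ[ℂ] K)) Γ ξ

open scoped Classical in
/-- **JOB CONH.** (1) If `adjoin (k₀, w)` is contained in a unirational `L`, then `Con` holds for the stabilizer of `w`:
`machine_corr` with the single subgroup and `huni'` of `BD/KummerCorr.lean`. (2) Transfer from `K ≃ₐ[F] K` to the stabilizer of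
`w` in `K ≃ₐ[k₀] K` when `F = k₀(w)`: an automorphism over `k₀` fixing `w` is the same as an automorphism over `F`; enlarge `B` by
all `σ (ξ i)`. -/
def S_CONH : Prop :=
  ∀ (K : Type) [Field K] [Algebra ℂ K] (k₀ : IntermediateField ℂ K) (w : K),
    ∀ [Fintype (K ≃ₐ[k₀] K)], FiniteDimensional k₀ K → IsGalois k₀ K →
    ∀ (N : ℕ) (ξ : Fin (N + 1) → K),
    ((∃ L : IntermediateField ℂ K, k₀ ≤ L ∧ w ∈ L ∧ Emb L) →
      Con (fun σ : K ≃ₐ[k₀] K => (σ.restrictScalars ℂ : K ≃ₐ[ℂ] K))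
        (fun σ => if σ w = w then 1 else 0) ξ) ∧
    (∀ (F : IntermediateField ℂ K) [Fintype (K ≃ₐ[F] K)],
      F = k₀ ⊔ IntermediateField.adjoin ℂ ({w} : Set K) →
      Con (fun σ : K ≃ₐ[F] K => (σ.restrictScalars ℂ : K ≃ₐ[ℂ] K)) (fun _ => 1) ξ →
      Con (fun σ : K ≃ₐ[k₀] K => (σ.restrictScalars ℂ : K ≃ₐ[ℂ] K))
        (fun σ => if σ w = w then 1 else 0) ξ)

open scoped Classical in
/-- **JOB MOVE.** From `Con` for the identity to all points: `Con` with `Γ σ = 1` if `σ = 1` and `0` otherwise says that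
`cls (p 1)` is the same for all points `φ` of `B` for which all `σ ξ` give points; this is the function `hgood` in the proof of
`BC.machine` (`BC/Machine.lean`, from the comment about good points on; with `A` = the algebra generated by
`B`; `h₀ = ∏ σ, σ (ξ i₀)` where `ξ i₀ ≠ 0`, so that `φ h₀ ≠ 0` gives points `φ (σ ξ)`); the rest of that proof (moving, `BC.move`)
applies word for word. (`G` finite, `r 1 = id`.) -/
def S_MOVE : Prop :=
  ∀ (K : Type) [Field K] [Algebra ℂ K] (G : Type) [Group G] [Fintype G] (r : G → K ≃ₐ[ℂ] K),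
    (∀ z, r 1 z = z) → ∀ (N : ℕ) (ξ : Fin (N + 1) → K) (hξ : ξ ≠ 0),
    Con r (fun σ => if σ = 1 then 1 else 0) ξ → ∀ a b : (locus ξ hξ).Pts ℂ, cls a = cls b

/-- Classification for the cubic (mine). -/
def S_CLASS3 : Prop :=
  ∀ (C : P3), C.IsHomogeneous 3 → Nice C → ∀ (k : ℕ) (l : Fin (2 * k + 1) → V3),
    (∀ i, l i ≠ 0) → (∀ i j, i ≠ j → LinearIndependent ℂ ![l i, l j]) →
    Adj3 C k l ∨ (∃ W : Submodule ℂ V3, Module.finrank ℂ W = 2 ∧ C ∈ IW W ∧ ∀ i, l i ∈ W) ∨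
      Enr C l

end Pool.Agent.J4H13.LC
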