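import Pool.Agent.J4H13.LC.Final3
import Pool.Agent.J4H13.LC.Conic
import Pool.Agent.J4H56.LC.Two3
import Pool.Agent.J4H56.LC.Three3
import Pool.Agent.J4H56.LC.Quad
import Pool.Agent.J4H71.LC.Count3
import Pool.Agent.J4H71.LC.Tsen
import Pool.Agent.J4H64.LC.Rat3
import Pool.Agent.J4H64.LC.Enr
import Pool.Agent.J4H64.LC.Enrc
import Pool.Agent.J4H67.LC.Mach2
import Pool.Agent.J4H57.LC.Conh
import Pool.Agent.J4H57.LC.Kcon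
import Pool.Agent.J4H42.LC.Move

/-!
# Zero-cycles on the covers of the plane branched along a cubic and lines: the theorems
-/

set_option autoImplicit false

open MvPolynomial FF

namespace Pool.Agent.J4H13.LC

open Pool.Agent.J4H13.BC Pool.Agent.J4H13.LA Pool.Agent.J4H13.BD Pool.Agent.W602.GT
  Pool.Agent.W603.LV Pool.Agent.Helper397.HK

variable {K : Type} [Field K] [Algebra ℂ K]

theorem t_CLASS3 : S_CLASS3 :=
  classif3 Pool.Agent.J4H89.LC.t_PT Pool.Agent.J4H89.LC.t_BEZ t_DIM Pool.Agent.J4H71.LC.t_COUNT3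
    Pool.Agent.J4H56.LC.t_TWO3 Pool.Agent.J4H56.LC.t_THREE3 Pool.Agent.J4H56.LC.t_QUAD

/-- **Bloch's conjecture for the covers branched along a smooth cubic and lines.** -/
theorem bloch_cubic (hpg : PgZero K) (hq : QZero K) {x y : K}
    (hxy : AlgebraicIndependent ℂ ![x, y]) {C : P3} (hC : C.IsHomogeneous 3) (hCs : Smooth C)
    {k : ℕ} {w₀ : K} {w : Fin k → K}
    (hw₀ : ∃ (n : ℕ) (l : Fin n → V3), (∀ j, l j ≠ 0) ∧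
      w₀ ^ 2 = aeval (gp x y) C * ∏ j, ev (gp x y) (l j))
    (hw : ∀ i, ∃ (n : ℕ) (l : Fin n → V3), (∀ j, l j ≠ 0) ∧ w i ^ 2 = ∏ j, ev (gp x y) (l j))
    (hgen : IntermediateField.adjoin ℂ ({x, y, w₀} ∪ Set.range w) = ⊤)
    {N : ℕ} (ξ : Fin (N + 1) → K) (hξ : ξ ≠ 0) : ∀ a b : (locus ξ hξ).Pts ℂ, cls a = cls b := by
  classical
  obtain ⟨h1, h2, h3⟩ := con_prod Pool.Agent.J4H63.LC.t_REG t_CLASS3 Pool.Agent.J4H71.LC.t_TSEN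
    Pool.Agent.J4H64.LC.t_RAT3 Pool.Agent.J4H64.LC.t_ENRC Pool.Agent.J4H64.LC.t_ENR
    Pool.Agent.J4H67.LC.t_MACH2 Pool.Agent.J4H57.LC.t_CONH hxy hC
    (Pool.Agent.J4H89.LC.t_NICE C 3 (by norm_num) hC hCs) (data_cons hw₀ hw)
  exact bloch_con Pool.Agent.J4H57.LC.t_KCON Pool.Agent.J4H42.LC.t_MOVE hpg hq hxy h1 h2 rfl
    (gen_cons hgen) ξ hξ (fun S hS1 hS2 => h3 rfl ξ S hS1 hS2)

/-- **Correspondences in the group ring.** -/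
theorem corr_cubic {x y : K} (hxy : AlgebraicIndependent ℂ ![x, y]) {C : P3}
    (hC : C.IsHomogeneous 3) (hCs : Smooth C) {k : ℕ} {w₀ : K} {w : Fin k → K}
    (hw₀ : ∃ (n : ℕ) (l : Fin n → V3), (∀ j, l j ≠ 0) ∧
      w₀ ^ 2 = aeval (gp x y) C * ∏ j, ev (gp x y) (l j))
    (hw : ∀ i, ∃ (n : ℕ) (l : Fin n → V3), (∀ j, l j ≠ 0) ∧ w i ^ 2 = ∏ j, ev (gp x y) (l j))
    (hgen : IntermediateField.adjoin ℂ ({x, y, w₀} ∪ Set.range w) = ⊤)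
    {n : ℕ} {c : Fin n → ℚ} {g : Fin n → K ≃ₐ[ℂ] K} (hg : ∀ j, g j x = x ∧ g j y = y)
    (h2 : KillsTwo c g) (h1 : KillsOne c g) {N : ℕ} {Y : ProjVar N} {ξ : Fin (N + 1) → K}
    (hξ : ξ ∈ Y.Pts K) :
    ∃ (B : Subalgebra ℂ K) (hB : ∀ j i, g j (ξ i) ∈ B), B.FG ∧
      ∀ (φ φ' : B →ₐ[ℂ] ℂ) (p p' : Fin n → Y.Pts ℂ),
        (∀ j i, (p j).1 i = φ ⟨g j (ξ i), hB j i⟩) →
        (∀ j i, (p' j).1 i = φ' ⟨g j (ξ i), hB j i⟩) →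
        ∑ j, c j • cls (p j) = ∑ j, c j • cls (p' j) := by
  classical
  obtain ⟨e1, e2, e3⟩ := con_prod Pool.Agent.J4H63.LC.t_REG t_CLASS3 Pool.Agent.J4H71.LC.t_TSEN
    Pool.Agent.J4H64.LC.t_RAT3 Pool.Agent.J4H64.LC.t_ENRC Pool.Agent.J4H64.LC.t_ENR
    Pool.Agent.J4H67.LC.t_MACH2 Pool.Agent.J4H57.LC.t_CONH hxy hC
    (Pool.Agent.J4H89.LC.t_NICE C 3 (by norm_num) hC hCs) (data_cons hw₀ hw)
  exact corr_con Pool.Agent.J4H57.LC.t_KCON hxy e1 e2 rfl (gen_cons hgen) hg h2 h1 hξ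
    (fun S hS1 hS2 => e3 rfl ξ S hS1 hS2)

end Pool.Agent.J4H13.LC
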