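import Pool.Agent.J4H13.LC.Main

/-!
# Zero-cycles on the covers of the plane branched along a conic and lines: the machine
-/

set_option autoImplicit false

open MvPolynomial FF

namespace Pool.Agent.J4H13.LC

open Pool.Agent.J4H13.BC Pool.Agent.J4H13.LA Pool.Agent.J4H13.BD Pool.Agent.W602.GT
  Pool.Agent.W603.LV Pool.Agent.Helper397.HK

variable {K : Type} [Field K] [Algebra ℂ K]

lemma noTwo_of_pg (hpg : PgZero K) {x y : K} (hxy : AlgebraicIndependent ℂ ![x, y]) {w : K}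
    (hw0 : w ≠ 0) : NoTwo x y w := by
  intro A hA hreg
  obtain ⟨ω, hω⟩ : ∃ ω : (Fin 2 → Derivation ℂ K K) → K,
    ω = fun D => wedge (D 0) (D 1) x y * (A / w) := ⟨_, rfl⟩
  have hpluri : IsPluri 1 ω := by
    intro M D
    rw [hω]
    simp only [wedge, Fin.sum_univ_two, Derivation.add_apply, Derivation.smul_apply, smul_eq_mul,
      Matrix.det_fin_two, pow_one]
    ring
  obtain ⟨D, h0x, h0y, h1x, h1y⟩ := exists_ders hxy
  have h3 := hpg ω hpluri (fun P hP => by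
    rw [hω]
    exact hreg P hP) D
  rw [hω] at h3
  simp only [wedge, h0x, h0y, h1x, h1y] at h3
  have h4 : A / w = 0 := by
    rw [← h3]
    ring
  exact (div_eq_zero_iff.1 h4).resolve_right hw0

lemma noOne_of_q (hq : QZero K) {x y : K} (hxy : AlgebraicIndependent ℂ ![x, y]) {w : K}
    (hw0 : w ≠ 0) : NoOne x y w := by
  intro A hA B hB hreg
  obtain ⟨η, hη⟩ : ∃ η : Derivation ℂ K K →ₗ[K] K,
      ∀ D, η D = (A * D x + B * D y) / w := by
    refine ⟨{ toFun := fun D => (A * D x + B * D y) / w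
              map_add' := fun D D' => by
                simp only [Derivation.add_apply]
                ring
              map_smul' := fun c D => by
                simp only [Derivation.smul_apply, smul_eq_mul, RingHom.id_apply]
                ring }, fun D => rfl⟩
  have h3 := hq η (fun P hP D hD => by
    rw [hη]
    exact hreg P hP D hD)
  have h5 : ∀ D : Derivation ℂ K K, A * D x + B * D y = 0 := by
    intro D
    have h6 := h3 D
    rw [hη] at h6
    exact (div_eq_zero_iff.1 h6).resolve_right hw0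
  obtain ⟨D, h0x, h0y, h1x, h1y⟩ := exists_ders hxy
  constructor
  · have h8 := h5 (D 0)
    rw [h0x, h0y] at h8
    linear_combination h8
  · have h8 := h5 (D 1)
    rw [h1x, h1y] at h8
    linear_combination h8

/-- The machine for square roots, in the form used here. -/
theorem bloch_abs (hpg : PgZero K) (hq : QZero K) {x y : K}
    (hxy : AlgebraicIndependent ℂ ![x, y]) {k : ℕ} {w : Fin k → K}
    (hw : ∀ i, w i ^ 2 ∈ IntermediateField.adjoin ℂ ({x, y} : Set K)) (hw0 : ∀ i, w i ≠ 0)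
    (hgood : ∀ S : Finset (Fin k), NoTwo x y (∏ i ∈ S, w i) → NoOne x y (∏ i ∈ S, w i) →
      Good x y (∏ i ∈ S, w i))
    (hgen : IntermediateField.adjoin ℂ ({x, y} ∪ Set.range w) = ⊤)
    {N : ℕ} (ξ : Fin (N + 1) → K) (hξ : ξ ≠ 0) : ∀ a b : (locus ξ hξ).Pts ℂ, cls a = cls b := by
  classical
  obtain ⟨k₀, hk₀⟩ : ∃ k₀ : IntermediateField ℂ K, k₀ = IntermediateField.adjoin ℂ {x, y} :=
    ⟨_, rfl⟩
  have hxk : x ∈ k₀ := by
    rw [hk₀]
    exact IntermediateField.subset_adjoin _ _ (by simp)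
  have hyk : y ∈ k₀ := by
    rw [hk₀]
    exact IntermediateField.subset_adjoin _ _ (by simp)
  have hwk : ∀ i, w i ^ 2 ∈ k₀ := by
    intro i
    rw [hk₀]
    exact hw i
  have hgen' : IntermediateField.adjoin k₀ (Set.range w) = ⊤ := by
    apply IntermediateField.restrictScalars_injective ℂ
    rw [IntermediateField.restrictScalars_top, eq_top_iff, ← hgen,
      IntermediateField.adjoin_le_iff]
    rintro z (hz | hz)
    · change z ∈ IntermediateField.adjoin k₀ (Set.range w)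
      have h1 : z ∈ k₀ := by
        rcases hz with rfl | hz
        · exact hxk
        · rw [Set.mem_singleton_iff] at hz
          rw [hz]
          exact hyk
      exact (IntermediateField.adjoin k₀ (Set.range w)).algebraMap_mem ⟨z, h1⟩
    · change z ∈ IntermediateField.adjoin k₀ (Set.range w)
      exact IntermediateField.subset_adjoin _ _ hz
  refine kummer hwk hw0 hgen' ?_ ξ hξ
  intro S
  have hS0 : ∏ i ∈ S, w i ≠ 0 := Finset.prod_ne_zero_iff.2 fun i _ => hw0 i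
  obtain ⟨L, hx, hy, hwL, m, hL⟩ := hgood S (noTwo_of_pg hpg hxy hS0) (noOne_of_q hq hxy hS0)
  refine ⟨L, ?_, hwL, m, hL⟩
  rw [hk₀, IntermediateField.adjoin_le_iff]
  rintro z (rfl | hz)
  · exact hx
  · rw [Set.mem_singleton_iff] at hz
    rw [hz]
    exact hy

/-- **Correspondences in the group ring.** -/
theorem corr_abs {x y : K} (hxy : AlgebraicIndependent ℂ ![x, y]) {k : ℕ} {w : Fin k → K}
    (hw : ∀ i, w i ^ 2 ∈ IntermediateField.adjoin ℂ ({x, y} : Set K)) (hw0 : ∀ i, w i ≠ 0)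
    (hgood : ∀ S : Finset (Fin k), NoTwo x y (∏ i ∈ S, w i) → NoOne x y (∏ i ∈ S, w i) →
      Good x y (∏ i ∈ S, w i))
    (hgen : IntermediateField.adjoin ℂ ({x, y} ∪ Set.range w) = ⊤)
    {n : ℕ} {c : Fin n → ℚ} {g : Fin n → K ≃ₐ[ℂ] K} (hg : ∀ j, g j x = x ∧ g j y = y)
    (h2 : KillsTwo c g) (h1 : KillsOne c g) {N : ℕ} {Y : ProjVar N} {ξ : Fin (N + 1) → K}
    (hξ : ξ ∈ Y.Pts K) :
    ∃ (B : Subalgebra ℂ K) (hB : ∀ j i, g j (ξ i) ∈ B), B.FG ∧
      ∀ (φ φ' : B →ₐ[ℂ] ℂ) (p p' : Fin n → Y.Pts ℂ),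
        (∀ j i, (p j).1 i = φ ⟨g j (ξ i), hB j i⟩) →
        (∀ j i, (p' j).1 i = φ' ⟨g j (ξ i), hB j i⟩) →
        ∑ j, c j • cls (p j) = ∑ j, c j • cls (p' j) := by
  classical
  obtain ⟨k₀, hk₀⟩ : ∃ k₀ : IntermediateField ℂ K, k₀ = IntermediateField.adjoin ℂ {x, y} :=
    ⟨_, rfl⟩
  have hxk : x ∈ k₀ := by
    rw [hk₀]
    exact IntermediateField.subset_adjoin _ _ (Or.inl rfl)
  have hyk : y ∈ k₀ := by
    rw [hk₀]
    exact IntermediateField.subset_adjoin _ _ (Or.inr rfl)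
  have hwk : ∀ i, w i ^ 2 ∈ k₀ := by
    intro i
    rw [hk₀]
    exact hw i
  have hgen' : IntermediateField.adjoin k₀ (Set.range w) = ⊤ := by
    apply IntermediateField.restrictScalars_injective ℂ
    rw [IntermediateField.restrictScalars_top, eq_top_iff, ← hgen,
      IntermediateField.adjoin_le_iff]
    rintro z (hz | hz)
    · change z ∈ IntermediateField.adjoin k₀ (Set.range w)
      have h1 : z ∈ k₀ := by
        rcases hz with rfl | hz
        · exact hxk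
        · rw [Set.mem_singleton_iff] at hz
          rw [hz]
          exact hyk
      exact (IntermediateField.adjoin k₀ (Set.range w)).algebraMap_mem ⟨z, h1⟩
    · change z ∈ IntermediateField.adjoin k₀ (Set.range w)
      exact IntermediateField.subset_adjoin _ _ hz
  obtain ⟨hfin, hgal⟩ := isGalois_sqrt hwk hgen'
  have hcharK : CharZero K := charZero_of_C K
  have hft : Fintype (K ≃ₐ[k₀] K) := Fintype.ofFinite _
  -- the automorphisms as elements of the Galois group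
  have hr : ∀ j, ∃ σ : K ≃ₐ[k₀] K, ∀ z, σ z = g j z := by
    intro j
    refine ⟨AlgEquiv.ofRingEquiv (f := (g j : K ≃+* K)) (fun z => ?_), fun z => rfl⟩
    have h3 : ∀ u, u ∈ k₀ → g j u = u := by
      intro u hu
      rw [hk₀] at hu
      exact fix_adjoin (hg j).1 (hg j).2 _ hu
    exact h3 z.1 z.2
  choose r hr using hr
  obtain ⟨Γ, hΓ⟩ : ∃ Γ : (K ≃ₐ[k₀] K) → ℚ, Γ = fun σ => ∑ j, if r j = σ then c j else 0 :=
    ⟨_, rfl⟩
  -- sums
  have hsumK : ∀ z : K, ∑ σ, (Γ σ : K) * σ z = ∑ j, (c j : K) * g j z := by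
    intro z
    rw [hΓ]
    have h3 : ∀ σ : K ≃ₐ[k₀] K, ((∑ j, if r j = σ then c j else 0 : ℚ) : K) * σ z =
        ∑ j, if r j = σ then (c j : K) * σ z else 0 := by
      intro σ
      rw [Rat.cast_sum, Finset.sum_mul]
      refine Finset.sum_congr rfl fun j _ => ?_
      by_cases h : r j = σ
      · rw [if_pos h, if_pos h]
      · rw [if_neg h, if_neg h, Rat.cast_zero, zero_mul]
    simp only [h3]
    rw [Finset.sum_comm]
    refine Finset.sum_congr rfl fun j _ => ?_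
    rw [Finset.sum_ite_eq Finset.univ (r j), if_pos (Finset.mem_univ _), hr]
  have hsumC : ∀ q : (K ≃ₐ[k₀] K) → Y.Pts ℂ, ∑ σ, Γ σ • cls (q σ) = ∑ j, c j • cls (q (r j)) := by
    intro q
    rw [hΓ]
    have h3 : ∀ σ : K ≃ₐ[k₀] K, (∑ j, if r j = σ then c j else 0 : ℚ) • cls (q σ) =
        ∑ j, if r j = σ then c j • cls (q σ) else 0 := by
      intro σ
      rw [Finset.sum_smul]
      refine Finset.sum_congr rfl fun j _ => ?_
      by_cases h : r j = σ
      · rw [if_pos h, if_pos h]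
      · rw [if_neg h, if_neg h, zero_smul]
    simp only [h3]
    rw [Finset.sum_comm]
    refine Finset.sum_congr rfl fun j _ => ?_
    rw [Finset.sum_ite_eq Finset.univ (r j), if_pos (Finset.mem_univ _)]
  have hxE : x ∈ IntermediateField.adjoin ℂ ({x, y} : Set K) :=
    IntermediateField.subset_adjoin _ _ (Or.inl rfl)
  have hyE : y ∈ IntermediateField.adjoin ℂ ({x, y} : Set K) :=
    IntermediateField.subset_adjoin _ _ (Or.inr rfl)
  have hk₀u : ∃ m : ℕ, Nonempty (k₀ →ₐ[ℂ] FractionRing (PR m)) := by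
    rw [hk₀]
    exact ⟨2, embed_of_two hxy hxE hyE⟩
  obtain ⟨B, hB, hBfg, hmain⟩ := kummer_corr hwk hw0 hgen' Γ hk₀u (by
    intro S hS
    rw [hsumK] at hS
    have hsg : ∀ j, g j (∏ i ∈ S, w i) = ∏ i ∈ S, w i ∨ g j (∏ i ∈ S, w i) = -∏ i ∈ S, w i := by
      intro j
      apply sq_eq_sq_iff_eq_or_eq_neg.1
      rw [← map_pow]
      apply fix_adjoin (hg j).1 (hg j).2
      rw [← hk₀, ← Finset.prod_pow]
      exact _root_.prod_mem fun i _ => hwk i
    obtain ⟨L, hx, hy, hwL, q, hL⟩ := hgood S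
      (noTwo_of_kills hxy hg h2 hS hsg) (noOne_of_kills hxy hg h1 hS hsg)
    refine ⟨L, ?_, hwL, q, hL⟩
    rw [hk₀, IntermediateField.adjoin_le_iff]
    rintro z (rfl | hz)
    · exact hx
    · rw [Set.mem_singleton_iff] at hz
      rw [hz]
      exact hy) ξ
  obtain ⟨i₀, hi₀⟩ := Function.ne_iff.1 hξ.1
  obtain ⟨B', hB'def⟩ : ∃ B' : Subalgebra ℂ K, B' = B ⊔
    Algebra.adjoin ℂ (Set.range fun σ : K ≃ₐ[k₀] K => (σ (ξ i₀))⁻¹) := ⟨_, rfl⟩
  have hBB : B ≤ B' := by
    rw [hB'def]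
    exact le_sup_left
  have hinv : ∀ σ : K ≃ₐ[k₀] K, (σ (ξ i₀))⁻¹ ∈ B' := by
    intro σ
    rw [hB'def]
    exact (le_sup_right : Algebra.adjoin ℂ (Set.range fun σ : K ≃ₐ[k₀] K => (σ (ξ i₀))⁻¹) ≤ _)
      (Algebra.subset_adjoin ⟨σ, rfl⟩)
  refine ⟨B', fun j i => hBB (by rw [← hr]; exact hB (r j) i), ?_, ?_⟩
  · rw [hB'def]
    exact hBfg.sup (Subalgebra.fg_def.2 ⟨_, Set.finite_range _, rfl⟩)
  intro φ φ' p p' hp hp'
  -- the points of the orbit
  have hpt : ∀ ψ : B' →ₐ[ℂ] ℂ, ∀ σ : K ≃ₐ[k₀] K,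
      (fun i => ψ ⟨σ (ξ i), hBB (hB σ i)⟩) ∈ Y.Pts ℂ := by
    intro ψ σ
    constructor
    · intro h3
      have h4 : ψ ⟨σ (ξ i₀), hBB (hB σ i₀)⟩ = 0 := congrFun h3 i₀
      have h5 : (⟨σ (ξ i₀), hBB (hB σ i₀)⟩ : B') * ⟨_, hinv σ⟩ = 1 := by
        apply Subtype.ext
        change σ (ξ i₀) * (σ (ξ i₀))⁻¹ = 1
        exact mul_inv_cancel₀ fun h6 => hi₀ (by
          have h7 := σ.injective (h6.trans (map_zero σ).symm)
          exact h7)
      have h6 := congrArg ψ h5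
      rw [map_mul, h4, zero_mul, map_one] at h6
      exact zero_ne_one h6
    · have h3 : ProjVar.OnCone Y (fun i => (⟨σ (ξ i), hBB (hB σ i)⟩ : B')) := by
        apply ProjVar.OnCone.of_injective B'.val Subtype.val_injective
        have h4 : ProjVar.OnCone Y ξ := hξ.2
        exact h4.map ((σ : K →ₐ[k₀] K).restrictScalars ℂ)
      exact h3.map ψ
  have hval : ∀ (ψ : B' →ₐ[ℂ] ℂ) (q : Fin n → Y.Pts ℂ),
      (∀ j i, (q j).1 i = ψ ⟨g j (ξ i), hBB (by rw [← hr]; exact hB (r j) i)⟩) →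
      ∑ j, c j • cls (q j) = ∑ σ, Γ σ • cls (⟨_, hpt ψ σ⟩ : Y.Pts ℂ) := by
    intro ψ q hq
    rw [hsumC]
    refine Finset.sum_congr rfl fun j _ => ?_
    congr 2
    apply Subtype.ext
    funext i
    rw [hq]
    change _ = ψ _
    congr 1
    exact Subtype.ext (hr j _).symm
  rw [hval φ p hp, hval φ' p' hp']
  exact hmain Y hξ.2 (φ.comp (Subalgebra.inclusion hBB)) (φ'.comp (Subalgebra.inclusion hBB))
    (fun σ => ⟨_, hpt φ σ⟩) (fun σ => ⟨_, hpt φ' σ⟩) (fun σ i => rfl) (fun σ i => rfl)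


section conic

variable (hREG : S_REG) (hCLASS : S_CLASS) (hBEZ : S_BEZ) (hCREM : S_CREM) (hRAT : S_RAT)

include hREG hCLASS hBEZ hCREM hRAT

lemma good_prod {x y : K} (hxy : AlgebraicIndependent ℂ ![x, y]) {C : P3}
    (hC : C.IsHomogeneous 2) (hN : Nice C) {k : ℕ} {w : Fin k → K}
    (hw : ∀ i, ∃ (e n : ℕ) (l : Fin n → V3), (∀ j, l j ≠ 0) ∧
      w i ^ 2 = aeval (gp x y) C ^ e * ∏ j, ev (gp x y) (l j)) :
    (∀ i, w i ^ 2 ∈ IntermediateField.adjoin ℂ ({x, y} : Set K)) ∧ (∀ i, w i ≠ 0) ∧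
    ∀ S : Finset (Fin k), NoTwo x y (∏ i ∈ S, w i) → NoOne x y (∏ i ∈ S, w i) →
      Good x y (∏ i ∈ S, w i) := by
  classical
  have hc0 : aeval (gp x y) C ≠ 0 := aeval_gp_ne_zero hxy hC (nice_ne_zero hN)
  choose e m l hl0 hw2 using hw
  refine ⟨?_, ?_, ?_⟩
  · intro i
    rw [hw2]
    exact mul_mem (pow_mem (aeval_mem x y C) _) (_root_.prod_mem fun j _ => ev_mem' x y _)
  · intro i h
    have h1 : aeval (gp x y) C ^ e i * (∏ j, ev (gp x y) (l i j)) = 0 := by
      rw [← hw2, h]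
      ring
    obtain ⟨j, -, hj⟩ := Finset.prod_eq_zero_iff.1
      ((mul_eq_zero.1 h1).resolve_left (pow_ne_zero _ hc0))
    exact ev_gp_ne_zero hxy (hl0 i j) hj
  · intro S hpg hq
    have hS2 : (∏ i ∈ S, w i) ^ 2 = aeval (gp x y) C ^ (∑ i ∈ S, e i) *
        ∏ p ∈ S.sigma (fun i => (Finset.univ : Finset (Fin (m i)))), ev (gp x y) (l p.1 p.2) := by
      rw [← Finset.prod_pow, Finset.prod_sigma, ← Finset.prod_pow_eq_pow_sum,
        ← Finset.prod_mul_distrib]
      exact Finset.prod_congr rfl fun i _ => hw2 i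
    exact good_mixed hREG hCLASS hBEZ hCREM hRAT hxy hC hN
      (l := fun p : (i : Fin k) × Fin (m i) => l p.1 p.2) (fun p => hl0 p.1 p.2) _ _ hpg hq hS2

end conic

end Pool.Agent.J4H13.LC
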