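import Pool.Agent.J4H13.BD.Final

/-!
# Project LC: covers of the plane with the group `(ℤ/2)^r`, branched along lines AND a smooth conic `C`
(row MP_7ebcb6_ag, very famous; group ring version for MP_31564d_ag).

THEOREM. `K` generated over `ℂ` by `x, y` (algebraically independent) and square roots `w i`,
`w i ^ 2 = c ^ ε_i * (product of linear polynomials)`, `c = C (1, x, y)`; if `p_g = q = 0` then all points of a
projective surface with function field `K` are rationally equivalent (mod torsion).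

The machine (`kummer`, `kummer_corr`) reduces it to: every double plane `v ^ 2 = c * l_1 ⋯ l_N` (`N` even, lines
pairwise different) without the regular 2-forms `A dx dy / v` is `Good` (unirational). The notation is that of
`Pool.Agent.J4H13.LA`: `V3` = coefficient vectors of linear forms, `lin`, `IW W` = the ideal generated by the linear
forms in `W` (a POINT of the plane is a subspace `W` with `finrank = 2`: the linear forms vanishing there), `thr l W` =
the set of the lines through `W`, `pts l` = the blocks (sets of lines through an intersection point),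
`IsLS`, `gp x y = ![1, x, y]`, `ev`, `Ge P n f` : `f = 0` or `n ≤ ord f`.

Each `S_X : Prop` below is a job: prove `theorem t_X : S_X` in a file of your own folder.
-/

set_option autoImplicit false

open MvPolynomial FF

namespace Pool.Agent.J4H13.LC

open Pool.Agent.J4H13.BC Pool.Agent.J4H13.LA Pool.Agent.J4H13.BD Pool.Agent.W602.GT
  Pool.Agent.W603.LV

/-- the curve `C = 0` in the plane is smooth -/
def Smooth (C : P3) : Prop :=
  ∀ p : V3, p ≠ 0 → eval p C = 0 → ∃ i, eval p (pderiv i C) ≠ 0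

open scoped Classical in
/-- the multiplicity of the branch curve `C * ∏ l i` at the point `W` -/
noncomputable def mu {n : ℕ} (C : P3) (l : Fin n → V3) (W : Submodule ℂ V3) : ℕ :=
  (thr l W).card + if C ∈ IW W then 1 else 0

/-- the point `p` of the plane as a space of linear forms -/
def pw (p : V3) : Submodule ℂ V3 where
  carrier := {w | ∑ i, w i * p i = 0}
  add_mem' := by
    intro a b ha hb
    rw [Set.mem_ofPred_eq] at ha hb ⊢
    simp only [Pi.add_apply, add_mul, Finset.sum_add_distrib, ha, hb, add_zero]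
  zero_mem' := by
    rw [Set.mem_ofPred_eq]
    simp
  smul_mem' := by
    intro c a ha
    rw [Set.mem_ofPred_eq] at ha ⊢
    simp only [Pi.smul_apply, smul_eq_mul, mul_assoc, ← Finset.mul_sum, ha, mul_zero]

/-- the linear form `lin w` does not divide `C` and some power of each variable is in the ideal of the
partial derivatives -/
def Nice (C : P3) : Prop :=
  (∀ w : V3, w ≠ 0 → ¬ lin w ∣ C) ∧
    ∀ j, ∃ M : ℕ, (X j : P3) ^ M ∈ Ideal.span (Set.range fun i => pderiv i C)

/-- **JOB NICE.** (Nullstellensatz.) A smooth curve of degree `e ≥ 2` is nice.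
Proof. (1) If `C = lin w * G`, `G` is homogeneous of degree `e - 1 ≥ 1`; the line `w = 0` (two-dimensional space of
`p`'s) contains `p ≠ 0` with `G p = 0` (`G (s p₁ + t p₂)` is a binary form of degree ≥ 1, put `t = 1` and take a root of the
polynomial in `s`, or `(s, t) = (1, 0)` if this polynomial is constant), and then all `pderiv i C` vanish at `p` and
`C p = 0`, a contradiction. (2) By Euler (`∑ X i * pderiv i C = e * C`, in Mathlib for homogeneous polynomials, else
prove it on monomials) a common zero `p ≠ 0` of the partial derivatives is a zero of `C`, contradicting `Smooth`; so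
the zero locus of the ideal of the partial derivatives is contained in `{0}` and `X j` is in its radical
(`MvPolynomial.vanishingIdeal_zeroLocus_eq_radical`). -/
def S_NICE : Prop := ∀ (C : P3) (e : ℕ), 2 ≤ e → C.IsHomogeneous e → Smooth C → Nice C

/-- **JOB REG.** Regularity of the adjoint forms; compare the proof of `LA.reg_two` in `LA/RegTwoB.lean`, which is
the case without `C` (copy it and add the following). As there: `c`, `z = c • gp x y` with all `z i` regular and
`z i₀` a unit, `W = WP P z`, `u = c ^ d * v`, so `u ^ 2 = C(z) * ∏ ev z (l i)` (`C(z) = aeval z C`, use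
`N + e = 2 d`), form `= Del D₁ D₂ z * Q(z) / u`. Put `γ = P.ord (C(z)) ≥ 0` (`C(z) ≠ 0` by `aeval_gp_ne_zero`).
`2 * P.ord u = γ + ∑ i ∈ thr l W, P.ord (ev z (l i))`.

(0) `γ = 0`: then `C ∉ IW W` (elements of `IW W` have positive order at `z`), `mu C l W = (thr l W).card`, and the proof of
`reg_two` goes through unchanged.

(1) `γ ≥ 1`, first consequences. Some `(pderiv i C)(z)` has order `0`: else the ideal of the partial derivatives is in
the ideal of the polynomials of positive order at `z`, so `z i₀ ^ M` would have positive order (`Nice`, second part).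
CRAMER: for a derivation `D`, `D (C(z)) = ∑ C_i(z) * D (z i)` (`C_i = pderiv i C`), and `∑ C_i(z) * z i = e * C(z)`; so for
each `i`, `C_i(z) * Del D₁ D₂ z` is `±` the determinant of the matrix with the rows `z, D₁ z, D₂ z` whose column `i` is
replaced by `(e * C(z), D₁ C(z), D₂ C(z))` (a polynomial identity: `ring` after substituting
`C(z), D C(z)`; `Del D₁ D₂ z` is `det (z, D₁ z, D₂ z)`). The column has the orders `≥ γ, γ-1, γ-1` (`ge_D`).

(2) `γ ≥ 1`, `W = ⊥`: no line is positive, `2 * P.ord u = γ`, so `γ ≥ 2`; by (1) `Del D₁ D₂ z` has order `≥ γ - 1 ≥ P.ord u`.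

(3) `γ ≥ 1`, `W` of dimension one, `W = span {b}`, is impossible: extend to a basis `b, b₁, b₂` (or write
`C = lin b * G + H` with `H` a binary form in `lin b₁, lin b₂`, nonzero because `¬ lin b ∣ C`); `H = const * ∏ (s_j b₁ + t_j b₂)`
over `ℂ`, each factor is not in `W`, so has order `0` at `z` (`ord_of_notMem`): `C(z)` = positive + unit has order `0`. (Or: with
`τ = ev z b₁ / ev z b₂`, a unit, `H (τ, 1)` of positive order gives a root `τ₀ ∈ ℂ` of `H(T, 1)` with `τ - τ₀` of positive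
order; then `b₁ - τ₀ b₂ ∈ W`.)

(4) `γ ≥ 1`, `W` of dimension two: the basis `b` of `exists_coords` (its proof shows `b 1, b 2 ∈ W` when `dim W = 2`; or: it
follows since `α = ord b1`: if `b 1 ∉ W` then `α = 0`, and then the minimality property gives nothing, so re-derive: a `w ∈ W`
outside `span {b 2}` has `1 ≤ ord w ≤ α` by the max property), `α ≤ β` the orders of `b 1, b 2`, `α ≥ 1`,
`y_j = ev z (b j)`. `C ∈ IW W`: write `C` in the coordinates `lin (b j)`: `C = κ * lin (b 0) ^ e + (element of IW W)`; since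
`γ ≥ 1` and `y_0` is a unit, `κ = 0`. So `mu C l W = r + 1`, `r = (thr l W).card`. Let `C'` be `C` in the new coordinates,
`C(z) = C'(y)`; some `C'_j (y)` is a unit by (1) and the chain rule (the `C_i(z)` are `ℂ`-combinations of the `C'_j(y)`), and
by Euler `y_0 C'_0(y) = e C(z) - y_1 C'_1(y) - y_2 C'_2(y)` is positive, so `j ∈ {1, 2}`. By Cramer in the coordinates `y`
(`Del` changes by the nonzero constant `det b`, `Del_basis`), the column `j` being replaced by `(e C, D₁ C, D₂ C)` =
`(C, D₁ C, D₂ C) + (e - 1) (C, 0, 0)`: the first part is `±Del` of a triple with the orders `0, γ, α or β` (`ge_Del`), the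
second `C(z) * wedge`: so `Del D₁ D₂ z` has order `≥ γ + α - 1`. It also has order `≥ α + β - 1` as in `reg_two`.
`Q(z)` has order `≥ (mu/2 - 1) α`; `2 ord u ≤ γ + r α + (β - α)` if `r ≥ 1` (at most one line in `span {b 2}`), and
`2 ord u = γ` if `r = 0`. Twice the order of the form is `≥ 2 (α + max β γ - 1) + 2 ((r+1)/2 - 1) α - γ - r α - (β - α) ≥
α - 2 ≥ -1` (use `2 ((r+1)/2) ≥ r`), and it is even, so `≥ 0`; for `r = 0`: `2 (α + max β γ - 1) - γ ≥ 0`. -/
def S_REG : Prop :=
  ∀ (K : Type) [Field K] [Algebra ℂ K] (x y : K), AlgebraicIndependent ℂ ![x, y] →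
    ∀ (C : P3) (N e d : ℕ), C.IsHomogeneous e → Nice C → 1 ≤ e → N + e = 2 * d → 3 ≤ d →
    ∀ (l : Fin N → V3), (∀ i, l i ≠ 0) → (∀ i j, i ≠ j → LinearIndependent ℂ ![l i, l j]) →
    ∀ (v : K), v ≠ 0 → v ^ 2 = aeval (gp x y) C * ∏ i, ev (gp x y) (l i) →
    ∀ (Q : P3), Q.IsHomogeneous (d - 3) →
    (∀ W : Submodule ℂ V3, Module.finrank ℂ W ≤ 2 → Q ∈ IW W ^ (mu C l W / 2 - 1)) →
    ∀ (P : Place ℂ K) (D₁ D₂ : Derivation ℂ K K), DerReg P D₁ → DerReg P D₂ →
      Ge P 0 (wedge D₁ D₂ x y * (aeval (gp x y) Q / v))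

/-- **JOB PT.** Points as vectors and as subspaces. (3): after a linear change of coordinates `p = (1, 0, 0)` and
`IW (pw p) = (X 1, X 2)`, or: `IW (pw p)` is in the kernel of `eval p`; conversely, choose `b 0` with `b 0 ⬝ p = 1` and a basis
`b 1, b 2` of `pw p`; every form `C` of degree `e` is `κ * lin (b 0) ^ e` modulo `IW (pw p)` and `eval p C = κ`
(`LA.exists_coord`, `LA.mem_pow_of_coeff` with `m = 1` help). -/
def S_PT : Prop :=
  (∀ p : V3, p ≠ 0 → Module.finrank ℂ (pw p) = 2) ∧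
  (∀ W : Submodule ℂ V3, Module.finrank ℂ W = 2 → ∃ p : V3, p ≠ 0 ∧ W = pw p) ∧
  (∀ (C : P3) (e : ℕ), 1 ≤ e → C.IsHomogeneous e → ∀ p : V3, p ≠ 0 →
    (C ∈ IW (pw p) ↔ eval p C = 0)) ∧
  (∀ p q : V3, p ≠ 0 → q ≠ 0 → (pw p = pw q ↔ ∃ a : ℂ, a ≠ 0 ∧ q = a • p))

/-- **JOB BEZ.** A line meets a curve of degree `e` which does not contain it in at most `e` points, and in at least one
point; a curve of degree `≥ 1` has infinitely many points. (You may assume `S_PT`.) Proof: the points of the line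
`l = 0` are `s • p₁ + t • p₂`; `C (s p₁ + t p₂)` is a binary form of degree `e`, nonzero if `¬ lin l ∣ C` (it has at most `e`
zeros up to scaling). For the last part: choose `o` with `C o ≠ 0` and infinitely many lines through `o`. -/
def S_BEZ : Prop :=
  (∀ (C : P3) (e : ℕ), C.IsHomogeneous e → ∀ l : V3, l ≠ 0 → ¬ lin l ∣ C →
    ∀ s : Finset (Submodule ℂ V3), (∀ W ∈ s, Module.finrank ℂ W = 2 ∧ l ∈ W ∧ C ∈ IW W) →
      s.card ≤ e) ∧
  (∀ (C : P3) (e : ℕ), 1 ≤ e → C.IsHomogeneous e → ∀ l : V3, l ≠ 0 →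
    ∃ W : Submodule ℂ V3, Module.finrank ℂ W = 2 ∧ l ∈ W ∧ C ∈ IW W) ∧
  (∀ (C : P3) (e : ℕ), 1 ≤ e → C.IsHomogeneous e → ∀ s : Finset (Submodule ℂ V3),
    ∃ W : Submodule ℂ V3, W ∉ s ∧ Module.finrank ℂ W = 2 ∧ C ∈ IW W)

/-- **JOB DIM.** Fewer conditions than coefficients: this is the first half of the proof of `LA.key` (`LA/Key2.lean`)
with `condL`, `exists_coord`, `mem_pow_of_coeff`, `form`; `W i = span {a, b}` for a basis `a, b` of `W i`. -/
def S_DIM : Prop :=
  ∀ (ι : Type) [Fintype ι] (W : ι → Submodule ℂ V3) (m : ι → ℕ) (D : ℕ),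
    (∀ i, Module.finrank ℂ (W i) = 2) → ∑ i, (m i + 1).choose 2 < (D + 2).choose 2 →
    ∃ Q : P3, Q ≠ 0 ∧ Q.IsHomogeneous D ∧ ∀ i, Q ∈ IW (W i) ^ m i

open scoped Classical in
/-- **JOB COUNT.** (Pure combinatorics.) `Φ` is the set of the blocks (points) of a linear space on `n = 2 (d - 1)` lines
and `Φc ⊆ Φ` are the points on the conic, at most two on each line. If there are at least `(d-1 choose 2)` conditions, then
(A) there is only one block, or (B) all lines are in the union of a point `A ∈ Φc` with an odd number of lines and a point `E`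
with an even number of lines, and there is a line in both, or (C) all lines are in the union of two points `A, B ∈ Φc`
with odd numbers of lines and a point `E ∉ Φc` with an even number of lines, and a line is in all three.

Proof. Write `r = F.card`, `m = r + 1` for `F ∈ Φc` and `m = r` otherwise. `8 * (m/2 choose 2)` is `r(r-1) - r` if `r` is even (on and
off `Φc`), `r(r-1) - 3(r-1)` if `r` is odd and `F ∉ Φc`, `r(r-1) + (r-1)` if `r` is odd and `F ∈ Φc`. By `IsLS.card_pairs`,
`∑ r(r-1) = n(n-1)`, and `8 * (d-1 choose 2) = n(n-1) - n`. So the assumption says `∑_F g F ≤ n` with `g F = r`, `3(r-1)`,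
`-(r-1)` in the three cases. Distribute over the lines: `∑_i val i ≤ n`, `val i = ∑_{F ∋ i} g F / r_F ∈ ℚ`: a block with `r` even
gives `1`, an odd block off `Φc` gives `3(r-1)/r ≥ 2`, an odd block on `Φc` gives `-(r-1)/r > -1`, and there are at most two of
the last kind on each line. Since `∑_{F ∋ i} (r_F - 1) = n - 1` is odd (`IsLS.card_through`), the number of even blocks on
`i` is odd. Hence `val i < 1` only if there is exactly one even block `E`, no odd block off `Φc`, and one or two odd blocks on `Φc`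
through `i`: this is (B) or (C) (in (C), `E ∉ Φc` as there are at most two blocks of `Φc` on `i`; every line is in a block
with `i`, or is `i`). If `val i ≥ 1` for all `i`, all are `= 1`, and then each line has exactly one even block and no odd block
(one even and one odd block off `Φc` and two on it: `≥ 1 + 2 - 4/3`..., more than `1`; three even blocks: `> 1`): (A). -/
def S_COUNT : Prop :=
  ∀ (n d : ℕ), 3 ≤ d → n = 2 * (d - 1) → ∀ (Φ Φc : Finset (Finset (Fin n))), IsLS Φ → Φc ⊆ Φ →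
    (∀ i, (Φc.filter (fun F => i ∈ F)).card ≤ 2) →
    (d - 1).choose 2 ≤ ∑ F ∈ Φ, ((F.card + if F ∈ Φc then 1 else 0) / 2).choose 2 →
    (∃ F ∈ Φ, ∀ i, i ∈ F) ∨
    (∃ A ∈ Φc, ∃ E ∈ Φ, A ≠ E ∧ Odd A.card ∧ Even E.card ∧ (∃ i, i ∈ A ∧ i ∈ E) ∧
      ∀ j, j ∈ A ∨ j ∈ E) ∨
    (∃ A ∈ Φc, ∃ B ∈ Φc, ∃ E ∈ Φ, E ∉ Φc ∧ A ≠ B ∧ Odd A.card ∧ Odd B.card ∧ Even E.card ∧
      (∃ i, i ∈ A ∧ i ∈ B ∧ i ∈ E) ∧ ∀ j, j ∈ A ∨ j ∈ B ∨ j ∈ E)

/-- there is an adjoint form for `C * ∏ l i` (`k - 2 = d - 3` with `d = k + 1`) -/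
def Adj (C : P3) (k : ℕ) (l : Fin (2 * k) → V3) : Prop :=
  2 ≤ k ∧ ∃ Q : P3, Q ≠ 0 ∧ Q.IsHomogeneous (k - 2) ∧
    ∀ W : Submodule ℂ V3, Module.finrank ℂ W ≤ 2 → Q ∈ IW W ^ (mu C l W / 2 - 1)

/-- three different points of `C` such that each line contains one of them -/
def Tri {n : ℕ} (C : P3) (l : Fin n → V3) : Prop :=
  ∃ A B X : Submodule ℂ V3, A ≠ B ∧ A ≠ X ∧ B ≠ X ∧ Module.finrank ℂ A = 2 ∧
    Module.finrank ℂ B = 2 ∧ Module.finrank ℂ X = 2 ∧ C ∈ IW A ∧ C ∈ IW B ∧ C ∈ IW X ∧
    ∀ i, l i ∈ A ∨ l i ∈ B ∨ l i ∈ X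

/-- **JOB TWO.** (case (B) of COUNT, geometric form.) `A` is on `C` with `2a - 1 ≥ 3` lines, `E` has `2b ≥ 2` lines, the line
`l i` contains both. If `b ≥ 2`: `Q = lin (l i) * lin (l j) ^ (a-2) * lin (l h) ^ (b-2)` with `j ∈ thr A \ thr E`,
`h ∈ thr E \ thr A`, of degree `a + b - 3 = k - 2` (`2a - 1 + 2b - 1 = 2k`); a point `W` with `mu ≥ 4` has at least three lines,
two of them in `thr A` or two in `thr E`, so `W = A` or `W = E` (`eq_pt`). If `b = 1`: all lines but one line `l h` contain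
`A`; a point `X` of `C` on `l h` (`S_BEZ`) is different from `A` (`l h ∉ A`), a third point of `C` by `S_BEZ`: `Tri`. -/
def S_TWO : Prop := S_BEZ →
  ∀ (C : P3), C.IsHomogeneous 2 → ∀ (k : ℕ) (l : Fin (2 * k) → V3),
    (∀ i j, i ≠ j → LinearIndependent ℂ ![l i, l j]) →
    ∀ (A E : Submodule ℂ V3), Module.finrank ℂ A = 2 → Module.finrank ℂ E = 2 → A ≠ E →
    C ∈ IW A → 3 ≤ (thr l A).card → Odd (thr l A).card → Even (thr l E).card →
    (∃ i, l i ∈ A ∧ l i ∈ E) → (∀ j, l j ∈ A ∨ l j ∈ E) → Adj C k l ∨ Tri C l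

/-- **JOB THREE.** (case (C) of COUNT, geometric form.) `A, B` on `C` with `2a - 1`, `2b - 1 ≥ 3` lines, `E` not on `C` with
`2c ≥ 2` lines, on the line `l i`; all lines pass through `A`, `B` or `E`; `2k = 2(a + b + c) - 4`, `k - 2 = a + b + c - 4`. Let
`T` be the set of the points `W` on `C`, other than `A, B`, with exactly three lines (necessarily one through each of `A, B, E`,
none of them `l i`). If `c = 1` and `T ≠ ∅`: the only line of `E` other than `l i` passes through `X ∈ T`, so `A, B, X` give `Tri`.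
Otherwise `Adj` with `Q = lin (l i) * Q'`, `Q'` of degree `a + b + c - 5` with multiplicity `a - 2, b - 2, c - 2` (`0` if `c = 1`) at
`A, B, E` and `1` at the points of `T`, from `S_DIM` (index type: `Fin 3 ⊕ T` or an `Option`): a point `W` with `mu ≥ 4` other
than `A, B, E` has at most one line of each, so exactly three lines and is on `C`. Number of conditions
`C(a-1,2) + C(b-1,2) + C(c-1,2) + t < C(a+b+c-3,2)`: with `α = a-2, β = b-2` the difference of the binomials is
`D = αβ + c(α+β+2) - 1`; each point of `T` is on a line through `A` different from `l i`, which has at most one more point on `C`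
besides `A` (`S_BEZ`, at most 2 points): `t ≤ 2a - 2 = 2α + 2`, `t ≤ 2β + 2`. If `c ≥ 2`: `D ≥ 2α + 2β + 3 > 2 min + 2`. If `c = 1`:
`t = 0 < (α+1)(β+1) = D`. If the degree `a + b + c - 5` would be negative (`a = b = 2, c = 0`) -- impossible as `c ≥ 1`. -/
def S_THREE : Prop := S_BEZ → S_DIM →
  ∀ (C : P3), C.IsHomogeneous 2 → Nice C → ∀ (k : ℕ) (l : Fin (2 * k) → V3),
    (∀ i j, i ≠ j → LinearIndependent ℂ ![l i, l j]) →
    ∀ (A B E : Submodule ℂ V3), Module.finrank ℂ A = 2 → Module.finrank ℂ B = 2 →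
    Module.finrank ℂ E = 2 → A ≠ B → A ≠ E → B ≠ E → C ∈ IW A → C ∈ IW B → C ∉ IW E →
    3 ≤ (thr l A).card → 3 ≤ (thr l B).card → 2 ≤ (thr l E).card →
    Odd (thr l A).card → Odd (thr l B).card → Even (thr l E).card →
    (∃ i, l i ∈ A ∧ l i ∈ B ∧ l i ∈ E) → (∀ j, l j ∈ A ∨ l j ∈ B ∨ l j ∈ E) → Adj C k l ∨ Tri C l

/-- **JOB CLASS.** Classification, from the previous jobs. If `k ≤ 1`: `l` has `0` or `2` lines, all through one point `W`
(`k = 1`: `pt l 0 1`; `k = 0`: any point); if `C ∉ IW W` this is the second alternative, otherwise `Tri` with two more points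
from `S_BEZ`. If `k ≥ 2`: `d = k + 1`. If `∑_{F ∈ pts l} ((F.card + [F on C]) / 2 choose 2) < (d-1 choose 2)` then `Adj` by `S_DIM` as
in `LA.key` (index type `pts l`, `F = thr l W_F` with `W_F = pt l i j`, `m_F = mu/2 - 1`). Otherwise `S_COUNT` with
`Φ = pts l` (`isLS`) and `Φc` = the blocks `thr l W` of the points `W` on `C` (at most two on each line by `S_BEZ`,
first part, and `Nice`): (A) is the second alternative or `Tri` (add two points), (B) is `S_TWO`, (C) is `S_THREE`. -/
def S_CLASS : Prop :=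
  ∀ (C : P3), C.IsHomogeneous 2 → Nice C → ∀ (k : ℕ) (l : Fin (2 * k) → V3),
    (∀ i, l i ≠ 0) → (∀ i j, i ≠ j → LinearIndependent ℂ ![l i, l j]) →
    Adj C k l ∨ Tri C l ∨
      ∃ W : Submodule ℂ V3, Module.finrank ℂ W = 2 ∧ C ∉ IW W ∧ ∀ i, l i ∈ W

/-- **JOB CREM.** The Cremona transformation with the fundamental points `A, B, X` on `C`. Choose a basis `m` of `V3` with
`A = span {m 1, m 2}`, `B = span {m 0, m 2}`, `X = span {m 0, m 1}` (nonzero vectors in the pairwise intersections of the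
two-dimensional spaces; they are independent because no line contains three points of `C`, `S_BEZ` and `Nice`; `m 0 ∈ B ∩ X` etc.). Then
`C = α lin(m 1) lin(m 2) + β lin(m 0) lin(m 2) + γ lin(m 0) lin(m 1)`, not all coefficients zero. Put `M_j = ev (gp x y) (m j)`,
`x' = M_0 / M_1`, `y' = M_0 / M_2`: algebraically independent, `adjoin {x', y'} = adjoin {x, y}` (the ratios `M_1/M_0`,
`M_2/M_0` generate, `LA.lin_mem`). With `gp x' y' = (1, M_0/M_1, M_0/M_2)`: `c = M_1 M_2 * ev (gp x' y') (α, β, γ)`;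
for `l i = b • m 1 + c • m 2 ∈ A`: `ev (gp x y) (l i) = (M_1 M_2 / M_0) * ev (gp x' y') (0, c, b)`, and similarly for `B` and
`X` (`b • m 0 + c • m 2 = (M_0 M_2 / M_1) * ev (gp x' y') (c, 0, b)`, ...). Since `M_1 M_2 / M_0 = M_0 / (x' y')`,
`M_0 M_2 / M_1 = M_0 x' / y'`, `M_0 M_1 / M_2 = M_0 y' / x'`, `M_1 M_2 = M_0 ^ 2 / (x' y')`, and the number of lines is even,
`v ^ 2 = g ^ 2 * ∏_{T} ev (gp x' y') (l'' j)` with `g ∈ adjoin {x, y}`, where the `l''` are the transformed lines, `(α, β, γ)` and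
the coordinate lines `e 1` (`x'`), `e 2` (`y'`) as often as necessary. `NoTwo x y v` gives `NoTwo x' y' (v / g)`:
`wedge D₁ D₂ x' y' = J * wedge D₁ D₂ x y` with `0 ≠ J ∈ adjoin {x, y}` (compute with `M_j`: `wedge` of the ratios is
`± det m / M_0 ^ 3`-like, see `Del_basis`, `Del_smul`, `Del_gp`; or by the general chain rule), `NoOne` similarly
(`A' dx' + B' dy' = A dx + B dy` with `A, B ∈ adjoin {x, y}`). Then `good_sqrt'` for `x', y', v/g`. -/
def S_CREM : Prop := S_BEZ →
  ∀ (K : Type) [Field K] [Algebra ℂ K] (x y : K), AlgebraicIndependent ℂ ![x, y] →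
    ∀ (C : P3), C.IsHomogeneous 2 → Nice C → ∀ (k : ℕ) (l : Fin (2 * k) → V3),
    (∀ i, l i ≠ 0) → Tri C l → ∀ (v : K), v ≠ 0 →
    v ^ 2 = aeval (gp x y) C * ∏ i, ev (gp x y) (l i) → NoTwo x y v → NoOne x y v → Good x y v

/-- **JOB RAT.** All lines pass through a point `W` which is not on the conic. Basis `m 0, m 1` of `W`, completed by `m 2`;
`s = M_1/M_0`, `u = M_2/M_0` (`M_j = ev (gp x y) (m j)`); `c = M_0 ^ 2 (κ u ^ 2 + b(s) u + q(s))`, `κ ≠ 0` as `C ∉ IW W`,
`deg b ≤ 1`, `deg q ≤ 2`; `v' = v / M_0 ^ (k + 1)`, `v' ^ 2 = f(s) (κ u ^ 2 + b(s) u + q(s))`, `f` = product of nonzero linear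
polynomials (`LA.prod_mem`). The discriminant `Δ(s) = b ^ 2 - 4 κ q` is nonzero (`Nice C`: otherwise `C = κ (lin)^2`).
In `Ω = AlgebraicClosure K`, let `ρ ^ 2 = Δ(s)`. There is `σ ∈ Ω` with `s, ρ ∈ ℂ(σ)`: `Δ` constant: `σ = s`; degree one:
`σ = ρ`; `Δ = a (s - r₁)(s - r₂)`: `σ = ρ / (s - r₁)` if `r₁ ≠ r₂` (then `σ ^ 2 = a (s - r₂)/(s - r₁)`), `σ = s` if `r₁ = r₂`.
With `u₁, u₂ = (-b ± ρ)/(2κ)` and `T = v' / (u - u₁)` (`u ≠ u₁`), `T ^ 2 = f κ (u - u₂)/(u - u₁)`, so
`u = (T ^ 2 u₁ - f κ u₂)/(T ^ 2 - f κ) ∈ ℂ(σ, T)` (`T ^ 2 ≠ f κ` since `ρ ≠ 0`). So the images of `x, y, v` in `Ω` are in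
`adjoin ℂ {σ, T}` (`LA.lin_mem`), which embeds in `FractionRing (PR 2)` (`LA.embed_of_two`); take `L = adjoin ℂ {x, y, v} ⊆ K`. -/
def S_RAT : Prop :=
  ∀ (K : Type) [Field K] [Algebra ℂ K] (x y : K), AlgebraicIndependent ℂ ![x, y] →
    ∀ (C : P3), C.IsHomogeneous 2 → Nice C → ∀ (k : ℕ) (l : Fin (2 * k) → V3),
    (∀ i, l i ≠ 0) → ∀ W : Submodule ℂ V3, Module.finrank ℂ W = 2 → C ∉ IW W →
    (∀ i, l i ∈ W) → ∀ (v : K), v ≠ 0 →
    v ^ 2 = aeval (gp x y) C * ∏ i, ev (gp x y) (l i) → Good x y v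

end Pool.Agent.J4H13.LC
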