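import Pool.Agent.J4H13.LC.Class

/-!
# Zero-cycles on the covers of the plane branched along a conic and lines
-/

set_option autoImplicit false

open MvPolynomial FF

namespace Pool.Agent.J4H13.LC

open Pool.Agent.J4H13.BC Pool.Agent.J4H13.LA Pool.Agent.J4H13.BD Pool.Agent.W602.GT
  Pool.Agent.W603.LV Pool.Agent.Helper397.HK

variable {K : Type} [Field K] [Algebra ℂ K]

/-- Removing squares, with a factor. -/
lemma reduceA {x y : K} (hxy : AlgebraicIndependent ℂ ![x, y]) {ι : Type} [DecidableEq ι]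
    {l : ι → V3} (hl0 : ∀ i, l i ≠ 0) (a : K) (N : ℕ) : ∀ (T : Finset ι), T.card = 2 * N →
    ∀ w : K, w ^ 2 = a * ∏ i ∈ T, ev (gp x y) (l i) →
    ∃ (d : ℕ) (l' : Fin (2 * d) → V3), (∀ i, l' i ≠ 0) ∧
      (∀ i j, i ≠ j → LinearIndependent ℂ ![l' i, l' j]) ∧
      ∃ g v : K, (∀ L : IntermediateField ℂ K, x ∈ L → y ∈ L → g ∈ L) ∧ w = g * v ∧
        v ^ 2 = a * ∏ i, ev (gp x y) (l' i) := by
  classical
  induction N with
  | zero =>
    intro T hT w hw
    have hT0 : T = ∅ := Finset.card_eq_zero.1 (by omega)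
    refine ⟨0, fun i => i.elim0, fun i => i.elim0, fun i => i.elim0, 1, w, fun L _ _ => one_mem L,
      (one_mul w).symm, ?_⟩
    rw [hw, hT0, Finset.prod_empty]
    rfl
  | succ N ih =>
    intro T hT w hw
    by_cases hpair : ∀ i ∈ T, ∀ j ∈ T, i ≠ j → LinearIndependent ℂ ![l i, l j]
    · have e : Fin (2 * (N + 1)) ≃ T := (Finset.equivFinOfCardEq hT).symm
      refine ⟨N + 1, fun i => l (e i), fun i => hl0 _, ?_, 1, w, fun L _ _ => one_mem L,
        (one_mul w).symm, ?_⟩
      · intro i j hij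
        exact hpair _ (e i).2 _ (e j).2 (fun h => hij (e.injective (Subtype.ext h)))
      · rw [hw, ← Finset.prod_coe_sort]
        congr 1
        exact (Equiv.prod_comp e (fun i : T => ev (gp x y) (l i))).symm
    · push Not at hpair
      obtain ⟨i, hi, j, hj, hij, hdep⟩ := hpair
      obtain ⟨c, hc0, hc⟩ : ∃ c : ℂ, c ≠ 0 ∧ l j = c • l i := by
        rw [LinearIndependent.pair_iff] at hdep
        push Not at hdep
        obtain ⟨s, t, hst, h6⟩ := hdep
        have ht : t ≠ 0 := by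
          rintro rfl
          rw [zero_smul, add_zero] at hst
          have hs : s = 0 := (smul_eq_zero.1 hst).resolve_right (hl0 i)
          exact h6 hs rfl
        have hs : s ≠ 0 := by
          rintro rfl
          rw [zero_smul, zero_add] at hst
          exact ht ((smul_eq_zero.1 hst).resolve_right (hl0 j))
        refine ⟨-(s / t), neg_ne_zero.2 (div_ne_zero hs ht), ?_⟩
        have h7 : l j = t⁻¹ • (t • l j) := by
          rw [smul_smul, inv_mul_cancel₀ ht, one_smul]
        rw [h7, eq_neg_of_add_eq_zero_right hst, smul_neg, smul_smul, neg_smul]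
        congr 2
        field_simp
      obtain ⟨r, hr⟩ := IsAlgClosed.exists_pow_nat_eq c (n := 2) two_pos
      have hr0 : r ≠ 0 := by
        rintro rfl
        apply hc0
        rw [← hr]
        ring
      have hT1 : ((T.erase i).erase j).card = 2 * N := by
        rw [Finset.card_erase_of_mem (Finset.mem_erase.2 ⟨Ne.symm hij, hj⟩),
          Finset.card_erase_of_mem hi, hT]
        omega
      have hei : ev (gp x y) (l i) ≠ 0 := ev_gp_ne_zero hxy (hl0 i)
      have hrK : algebraMap ℂ K r ≠ 0 := (map_ne_zero _).2 hr0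
      have hprod : ∏ k ∈ T, ev (gp x y) (l k) = (algebraMap ℂ K r * ev (gp x y) (l i)) ^ 2 *
          ∏ k ∈ (T.erase i).erase j, ev (gp x y) (l k) := by
        rw [← Finset.mul_prod_erase T _ hi, ← Finset.mul_prod_erase (T.erase i) _
          (Finset.mem_erase.2 ⟨Ne.symm hij, hj⟩), hc, ev_smul, ← hr, map_pow]
        ring
      obtain ⟨d, l', hl1, hl', g, v, hg, hw', hv⟩ := ih ((T.erase i).erase j) hT1
        (w / (algebraMap ℂ K r * ev (gp x y) (l i))) (by
          rw [div_pow, hw, hprod]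
          field_simp)
      refine ⟨d, l', hl1, hl', algebraMap ℂ K r * ev (gp x y) (l i) * g, v, ?_, ?_, hv⟩
      · intro L hx hy
        exact mul_mem (mul_mem (L.algebraMap_mem r) (ev_mem hx hy _)) (hg L hx hy)
      · rw [mul_assoc, ← hw']
        field_simp

lemma noTwo_mul {x y g v : K} (hg : g ∈ IntermediateField.adjoin ℂ ({x, y} : Set K)) (hg0 : g ≠ 0)
    (h : NoTwo x y (g * v)) : NoTwo x y v := by
  intro A hA hreg
  have h1 := h (A * g) (mul_mem hA hg) (fun P hP => by
    have h2 : A * g / (g * v) = A / v := by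
      rw [mul_comm A g, mul_div_mul_left _ _ hg0]
    rw [h2]
    exact hreg P hP)
  exact (mul_eq_zero.1 h1).resolve_right hg0

lemma noOne_mul {x y g v : K} (hg : g ∈ IntermediateField.adjoin ℂ ({x, y} : Set K)) (hg0 : g ≠ 0)
    (h : NoOne x y (g * v)) : NoOne x y v := by
  intro A hA B hB hreg
  have h1 := h (A * g) (mul_mem hA hg) (B * g) (mul_mem hB hg) (fun P hP D hD => by
    have h2 : (A * g * D x + B * g * D y) / (g * v) = (A * D x + B * D y) / v := by
      rw [show A * g * D x + B * g * D y = g * (A * D x + B * D y) by ring,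
        mul_div_mul_left _ _ hg0]
    rw [h2]
    exact hreg P hP D hD)
  exact ⟨(mul_eq_zero.1 h1.1).resolve_right hg0, (mul_eq_zero.1 h1.2).resolve_right hg0⟩

lemma nice_ne_zero {C : P3} (hN : Nice C) : C ≠ 0 := by
  rintro rfl
  exact hN.1 (Pi.single 0 1) (by
    intro h
    have := congrFun h 0
    simp at this) (dvd_zero _)

/-- **Double planes branched along a conic and lines.** -/
theorem good_conic (hREG : S_REG) (hCLASS : S_CLASS) (hBEZ : S_BEZ) (hCREM : S_CREM)
    (hRAT : S_RAT) {x y : K} (hxy : AlgebraicIndependent ℂ ![x, y]) {C : P3}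
    (hC : C.IsHomogeneous 2) (hN : Nice C) {k : ℕ} {l : Fin (2 * k) → V3} (hl0 : ∀ i, l i ≠ 0)
    (hl : ∀ i j, i ≠ j → LinearIndependent ℂ ![l i, l j]) {v : K} (hpg : NoTwo x y v)
    (hq : NoOne x y v) (hv0 : v ≠ 0) (hv : v ^ 2 = aeval (gp x y) C * ∏ i, ev (gp x y) (l i)) :
    Good x y v := by
  rcases hCLASS C hC hN k l hl0 hl with h | h | h
  · exfalso
    obtain ⟨hk, Q, hQ0, hQ, hmult⟩ := h
    refine aeval_gp_ne_zero hxy hQ hQ0 (hpg _ (aeval_mem x y Q) fun P _ D hD => ?_)
    exact hREG K x y hxy C (2 * k) 2 (k + 1) hC hN (by norm_num) (by ring) (by omega) l hl0 hl v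
      hv0 hv Q hQ hmult P (D 0) (D 1) (hD 0) (hD 1)
  · exact hCREM hBEZ K x y hxy C hC hN k l hl0 h v hv0 hv hpg hq
  · obtain ⟨W, hW, hCW, hall⟩ := h
    exact hRAT K x y hxy C hC hN k l hl0 W hW hCW hall v hv0 hv

/-- Square roots of products of linear forms and an odd power of the conic. -/
theorem good_conic_sqrt (hREG : S_REG) (hCLASS : S_CLASS) (hBEZ : S_BEZ) (hCREM : S_CREM)
    (hRAT : S_RAT) {x y : K} (hxy : AlgebraicIndependent ℂ ![x, y]) {C : P3}
    (hC : C.IsHomogeneous 2) (hN : Nice C) {ι : Type} [DecidableEq ι] {l : ι → V3}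
    (hl0 : ∀ i, l i ≠ 0) (T : Finset ι) {w : K} (hpg : NoTwo x y w) (hq : NoOne x y w)
    (hw : w ^ 2 = aeval (gp x y) C * ∏ i ∈ T, ev (gp x y) (l i)) : Good x y w := by
  classical
  have hc0 : aeval (gp x y) C ≠ 0 := aeval_gp_ne_zero hxy hC (nice_ne_zero hN)
  -- an even number of lines
  obtain ⟨ι', _, l₁, hl₁, T₁, N, hN', hT₁⟩ : ∃ (ι' : Type) (_ : DecidableEq ι') (l₁ : ι' → V3)
      (_ : ∀ i, l₁ i ≠ 0) (T₁ : Finset ι') (N : ℕ), T₁.card = 2 * N ∧
      ∏ i ∈ T₁, ev (gp x y) (l₁ i) = ∏ i ∈ T, ev (gp x y) (l i) := by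
    obtain ⟨N, hN | hN⟩ := Nat.even_or_odd' T.card
    · exact ⟨ι, inferInstance, l, hl0, T, N, hN, rfl⟩
    · refine ⟨Option ι, inferInstance, fun i => i.elim (Pi.single 0 1) l, ?_,
        Finset.insertNone T, N + 1, ?_, ?_⟩
      · intro i
        cases i with
        | none =>
          intro h
          have := congrFun h 0
          simp at this
        | some i => exact hl0 i
      · rw [Finset.card_insertNone, hN]
        ring
      · rw [Finset.prod_insertNone]
        change ev (gp x y) (Pi.single 0 1) * _ = _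
        rw [ev_single]
        change 1 * _ = _
        rw [one_mul]
        rfl
  have hw0 : w ≠ 0 := by
    rintro rfl
    have h1 : aeval (gp x y) C * ∏ i ∈ T, ev (gp x y) (l i) = 0 := by
      rw [← hw]
      ring
    obtain ⟨i, -, hi⟩ := Finset.prod_eq_zero_iff.1 ((mul_eq_zero.1 h1).resolve_left hc0)
    exact ev_gp_ne_zero hxy (hl0 i) hi
  obtain ⟨d, l', hl1, hl', g, v, hg, hwg, hv⟩ := reduceA hxy hl₁ (aeval (gp x y) C) N T₁ hN' w
    (by rw [hw, hT₁])
  have hgE : g ∈ IntermediateField.adjoin ℂ ({x, y} : Set K) :=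
    hg _ (IntermediateField.subset_adjoin _ _ (Or.inl rfl))
      (IntermediateField.subset_adjoin _ _ (Or.inr rfl))
  have hg0 : g ≠ 0 := by
    rintro rfl
    apply hw0
    rw [hwg, zero_mul]
  have hv0 : v ≠ 0 := by
    rintro rfl
    apply hw0
    rw [hwg, mul_zero]
  rw [hwg] at hpg hq
  obtain ⟨L, hx, hy, hvL, hL⟩ := good_conic hREG hCLASS hBEZ hCREM hRAT hxy hC hN hl1 hl'
    (noTwo_mul hgE hg0 hpg) (noOne_mul hgE hg0 hq) hv0 hv
  exact ⟨L, hx, hy, by rw [hwg]; exact mul_mem (hg L hx hy) hvL, hL⟩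

/-- Square roots of products of linear forms and powers of the conic. -/
theorem good_mixed (hREG : S_REG) (hCLASS : S_CLASS) (hBEZ : S_BEZ) (hCREM : S_CREM)
    (hRAT : S_RAT) {x y : K} (hxy : AlgebraicIndependent ℂ ![x, y]) {C : P3}
    (hC : C.IsHomogeneous 2) (hN : Nice C) {ι : Type} [DecidableEq ι] {l : ι → V3}
    (hl0 : ∀ i, l i ≠ 0) (T : Finset ι) (e : ℕ) {w : K} (hpg : NoTwo x y w) (hq : NoOne x y w)
    (hw : w ^ 2 = aeval (gp x y) C ^ e * ∏ i ∈ T, ev (gp x y) (l i)) : Good x y w := by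
  classical
  have hc0 : aeval (gp x y) C ≠ 0 := aeval_gp_ne_zero hxy hC (nice_ne_zero hN)
  have hcE : ∀ q : ℕ, aeval (gp x y) C ^ q ∈ IntermediateField.adjoin ℂ ({x, y} : Set K) :=
    fun q => pow_mem (aeval_mem x y C) q
  obtain ⟨q, hq' | hq'⟩ := Nat.even_or_odd' e
  · -- an even power
    have hcq : aeval (gp x y) C ^ q ≠ 0 := pow_ne_zero _ hc0
    have hwv : w = aeval (gp x y) C ^ q * (w / aeval (gp x y) C ^ q) := by
      rw [mul_div_cancel₀ _ hcq]
    have hpg' := hpg
    have hq'' := hq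
    rw [hwv] at hpg' hq''
    obtain ⟨L, hx, hy, hvL, hL⟩ := good_sqrt' hxy hl0 T (noTwo_mul (hcE q) hcq hpg')
      (noOne_mul (hcE q) hcq hq'') (by
        rw [div_pow, hw, hq', ← pow_mul, mul_comm q 2]
        field_simp)
    refine ⟨L, hx, hy, ?_, hL⟩
    rw [hwv]
    refine mul_mem ?_ hvL
    have h1 : IntermediateField.adjoin ℂ ({x, y} : Set K) ≤ L := by
      rw [IntermediateField.adjoin_le_iff]
      rintro z (rfl | hz)
      · exact hx
      · rw [Set.mem_singleton_iff] at hz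
        rw [hz]
        exact hy
    exact h1 (hcE q)
  · have hcq : aeval (gp x y) C ^ q ≠ 0 := pow_ne_zero _ hc0
    have hwv : w = aeval (gp x y) C ^ q * (w / aeval (gp x y) C ^ q) := by
      rw [mul_div_cancel₀ _ hcq]
    have hpg' := hpg
    have hq'' := hq
    rw [hwv] at hpg' hq''
    obtain ⟨L, hx, hy, hvL, hL⟩ := good_conic_sqrt hREG hCLASS hBEZ hCREM hRAT hxy hC hN hl0 T
      (noTwo_mul (hcE q) hcq hpg') (noOne_mul (hcE q) hcq hq'') (by
        rw [div_pow, hw, hq', ← pow_mul, pow_succ, mul_comm q 2]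
        field_simp)
    refine ⟨L, hx, hy, ?_, hL⟩
    rw [hwv]
    refine mul_mem ?_ hvL
    have h1 : IntermediateField.adjoin ℂ ({x, y} : Set K) ≤ L := by
      rw [IntermediateField.adjoin_le_iff]
      rintro z (rfl | hz)
      · exact hx
      · rw [Set.mem_singleton_iff] at hz
        rw [hz]
        exact hy
    exact h1 (hcE q)

end Pool.Agent.J4H13.LC
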