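import Pool.Agent.J4H13.LC.Class3
import Pool.Agent.J4H13.LC.Final

/-!
# Zero-cycles on the covers of the plane branched along a cubic and lines
-/

set_option autoImplicit false

open MvPolynomial FF

namespace Pool.Agent.J4H13.LC

open Pool.Agent.J4H13.BC Pool.Agent.J4H13.LA Pool.Agent.J4H13.BD Pool.Agent.W602.GT
  Pool.Agent.W603.LV Pool.Agent.Helper397.HK

variable {K : Type} [Field K] [Algebra ℂ K]

/-- Removing squares, with a factor; the parity of the number of lines is preserved. -/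
lemma reduceB {x y : K} (hxy : AlgebraicIndependent ℂ ![x, y]) {ι : Type} [DecidableEq ι]
    {l : ι → V3} (hl0 : ∀ i, l i ≠ 0) (a : K) (N : ℕ) : ∀ (T : Finset ι), T.card = 2 * N + 1 →
    ∀ w : K, w ^ 2 = a * ∏ i ∈ T, ev (gp x y) (l i) →
    ∃ (d : ℕ) (l' : Fin (2 * d + 1) → V3), (∀ i, l' i ≠ 0) ∧
      (∀ i j, i ≠ j → LinearIndependent ℂ ![l' i, l' j]) ∧
      ∃ g v : K, (∀ L : IntermediateField ℂ K, x ∈ L → y ∈ L → g ∈ L) ∧ w = g * v ∧
        v ^ 2 = a * ∏ i, ev (gp x y) (l' i) := by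
  classical
  induction N with
  | zero =>
    intro T hT w hw
    obtain ⟨i, rfl⟩ := Finset.card_eq_one.1 (by omega : T.card = 1)
    refine ⟨0, fun _ => l i, fun _ => hl0 i, ?_, 1, w, fun L _ _ => one_mem L,
      (one_mul w).symm, ?_⟩
    · intro p q hpq
      exfalso
      apply hpq
      apply Fin.ext
      have := p.2
      have := q.2
      omega
    · rw [hw, Finset.prod_singleton, Finset.prod_const, Finset.card_univ, Fintype.card_fin]
      simp
  | succ N ih =>
    intro T hT w hw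
    by_cases hpair : ∀ i ∈ T, ∀ j ∈ T, i ≠ j → LinearIndependent ℂ ![l i, l j]
    · have e : Fin (2 * (N + 1) + 1) ≃ T := (Finset.equivFinOfCardEq hT).symm
      refine ⟨N + 1, fun i => l (e i), fun i => hl0 _, ?_, 1, w, fun L _ _ => one_mem L,
        (one_mul w).symm, ?_⟩
      · intro i j hij
        exact hpair _ (e i).2 _ (e j).2 (fun h => hij (e.injective (Subtype.ext h)))
      · rw [hw, ← Finset.prod_coe_sort]
        congr 1
        exact (Equiv.prod_comp e (fun i : T => ev (gp x y) (l i))).symm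
    · push Not at hpair
      obtain ⟨i, hi, j, hj, hij, hdep⟩ := hpair
      obtain ⟨c, hc0, hc⟩ : ∃ c : ℂ, c ≠ 0 ∧ l j = c • l i := by
        rw [LinearIndependent.pair_iff] at hdep
        push Not at hdep
        obtain ⟨s, t, hst, h6⟩ := hdep
        have ht : t ≠ 0 := by
          rintro rfl
          rw [zero_smul, add_zero] at hst
          have hs : s = 0 := (smul_eq_zero.1 hst).resolve_right (hl0 i)
          exact h6 hs rfl
        have hs : s ≠ 0 := by
          rintro rfl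
          rw [zero_smul, zero_add] at hst
          exact ht ((smul_eq_zero.1 hst).resolve_right (hl0 j))
        refine ⟨-(s / t), neg_ne_zero.2 (div_ne_zero hs ht), ?_⟩
        have h7 : l j = t⁻¹ • (t • l j) := by
          rw [smul_smul, inv_mul_cancel₀ ht, one_smul]
        rw [h7, eq_neg_of_add_eq_zero_right hst, smul_neg, smul_smul, neg_smul]
        congr 2
        field_simp
      obtain ⟨r, hr⟩ := IsAlgClosed.exists_pow_nat_eq c (n := 2) two_pos
      have hr0 : r ≠ 0 := by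
        rintro rfl
        apply hc0
        rw [← hr]
        ring
      have hT1 : ((T.erase i).erase j).card = 2 * N + 1 := by
        rw [Finset.card_erase_of_mem (Finset.mem_erase.2 ⟨Ne.symm hij, hj⟩),
          Finset.card_erase_of_mem hi, hT]
        omega
      have hei : ev (gp x y) (l i) ≠ 0 := ev_gp_ne_zero hxy (hl0 i)
      have hrK : algebraMap ℂ K r ≠ 0 := (map_ne_zero _).2 hr0
      have hprod : ∏ k ∈ T, ev (gp x y) (l k) = (algebraMap ℂ K r * ev (gp x y) (l i)) ^ 2 *
          ∏ k ∈ (T.erase i).erase j, ev (gp x y) (l k) := by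
        rw [← Finset.mul_prod_erase T _ hi, ← Finset.mul_prod_erase (T.erase i) _
          (Finset.mem_erase.2 ⟨Ne.symm hij, hj⟩), hc, ev_smul, ← hr, map_pow]
        ring
      obtain ⟨d, l', hl1, hl', g, v, hg, hw', hv⟩ := ih ((T.erase i).erase j) hT1
        (w / (algebraMap ℂ K r * ev (gp x y) (l i))) (by
          rw [div_pow, hw, hprod]
          field_simp)
      refine ⟨d, l', hl1, hl', algebraMap ℂ K r * ev (gp x y) (l i) * g, v, ?_, ?_, hv⟩
      · intro L hx hy
        exact mul_mem (mul_mem (L.algebraMap_mem r) (ev_mem hx hy _)) (hg L hx hy)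
      · rw [mul_assoc, ← hw']
        field_simp

/-- the cases of the double planes -/
def Enrq (x y v : K) : Prop :=
  ∃ m : Fin 3 → V3, LinearIndependent ℂ m ∧ ∃ a b e μ : ℂ,
    ¬ (μ = 2 * e ∧ b = e) ∧ ¬ (μ = 2 * a ∧ e = a) ∧ ¬ (μ = 2 * a ∧ b = a) ∧
    v ^ 2 = cub a b e μ (ev (gp x y) (m 0)) (ev (gp x y) (m 1)) (ev (gp x y) (m 2)) *
      sev (ev (gp x y) (m 0)) (ev (gp x y) (m 1)) (ev (gp x y) (m 2))

/-- **Double planes branched along a cubic and lines.** -/
theorem good_cubic (hREG : S_REG) (hCLASS : S_CLASS3) (hTSEN : S_TSEN) (hRAT : S_RAT3)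
    (hENRC : S_ENRC) {x y : K} (hxy : AlgebraicIndependent ℂ ![x, y]) {C : P3}
    (hC : C.IsHomogeneous 3) (hN : Nice C) {k : ℕ} {l : Fin (2 * k + 1) → V3} (hl0 : ∀ i, l i ≠ 0)
    (hl : ∀ i j, i ≠ j → LinearIndependent ℂ ![l i, l j]) {v : K} (hpg : NoTwo x y v)
    (hv0 : v ≠ 0) (hv : v ^ 2 = aeval (gp x y) C * ∏ i, ev (gp x y) (l i)) :
    Good x y v ∨ ∃ r : ℂ, r ≠ 0 ∧ Enrq x y (algebraMap ℂ K r * v) := by
  rcases hCLASS C hC hN k l hl0 hl with h | h | h
  · exfalso
    obtain ⟨hk, Q, hQ0, hQ, hmult⟩ := h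
    refine aeval_gp_ne_zero hxy hQ hQ0 (hpg _ (aeval_mem x y Q) fun P _ D hD => ?_)
    exact hREG K x y hxy C (2 * k + 1) 3 (k + 2) hC hN (by norm_num) (by ring) (by omega) l hl0 hl
      v hv0 hv Q (by
        have h1 : k + 2 - 3 = k - 1 := by omega
        rw [h1]
        exact hQ) hmult P (D 0) (D 1) (hD 0) (hD 1)
  · obtain ⟨W, hW, hCW, hall⟩ := h
    exact Or.inl (hRAT hTSEN K x y hxy C hC hN k l hl0 W hW hCW hall v hv0 hv)
  · right
    obtain ⟨m, hm, a, b, e, μ, c, hc0, hCc, hprod⟩ := h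
    obtain ⟨r, hr⟩ := IsAlgClosed.exists_pow_nat_eq c⁻¹ (n := 2) two_pos
    have hr0 : r ≠ 0 := by
      rintro rfl
      apply inv_ne_zero hc0
      rw [← hr]
      ring
    obtain ⟨e1, e2, e3⟩ := hENRC m hm a b e μ (by rw [← hCc]; exact hN)
    refine ⟨r, hr0, m, hm, a, b, e, μ, e1, e2, e3, ?_⟩
    have h1 : aeval (gp x y) C = cub a b e μ (ev (gp x y) (m 0)) (ev (gp x y) (m 1))
        (ev (gp x y) (m 2)) := by
      rw [hCc]
      unfold cub
      simp only [map_add, map_mul, aeval_lin, AlgHom.commutes]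
    have h2 : ∏ i, ev (gp x y) (l i) = algebraMap ℂ K c * sev (ev (gp x y) (m 0))
        (ev (gp x y) (m 1)) (ev (gp x y) (m 2)) := by
      have h3 := congrArg (aeval (gp x y)) hprod
      rw [map_prod] at h3
      simp only [aeval_lin] at h3
      rw [h3]
      unfold sev
      simp only [map_add, map_mul, aeval_lin, algHom_C]
    have hcK : algebraMap ℂ K c ≠ 0 := (map_ne_zero _).2 hc0
    rw [mul_pow, hv, h1, h2, ← map_pow, hr, map_inv₀]
    field_simp

end Pool.Agent.J4H13.LC
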